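import Mathlib

/-!
# Quantum SU(2) invariants of the 3-manifolds obtained by surgery on trees of unknots
-/

set_option autoImplicit false

open Finset

namespace TreeWRT

/-- The quantum integer [n] = (q^(n/2) - q^(-n/2)) / (q^(1/2) - q^(-1/2)) = sin(π n / r) / sin(π / r) at
q = exp (2 π i / r). -/
noncomputable def qint (r n : ℕ) : ℝ := Real.sin (Real.pi * n / r) / Real.sin (Real.pi / r)

/-- The twist of the n-dimensional module V_n, q^((n^2 - 1) / 4) = exp (2 π i (n^2 - 1) / (4 r)): adding a
positive full twist to the framing of a component coloured by V_n multiplies the coloured invariant by it. -/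
noncomputable def twist (r n : ℕ) : ℂ :=
  Complex.exp (2 * Real.pi * Complex.I * ((n : ℂ) ^ 2 - 1) / (4 * r))

/-- The colours of the quantum SU(2) invariant at r = k + 2: the dimensions 0 < n < r of the irreducible
modules V_n. -/
def colours (r : ℕ) : Finset ℕ := Finset.Ioo 0 r

/-- The surgery sums C_+ (e = 1) and C_- (e = -1) of the unknots with framing 1 and -1. -/
noncomputable def gauss (r : ℕ) (e : ℤ) : ℂ := ∑ l ∈ colours r, (qint r l : ℂ) ^ 2 * twist r l ^ e

/-- The total dimension D, the positive square root of the sum of the squares of the quantum dimensions. -/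
noncomputable def dtot (r : ℕ) : ℝ := Real.sqrt (∑ l ∈ colours r, qint r l ^ 2)

/-- A framed link in S^3 whose components K_0, ..., K_n are unknots linked according to a tree: K_0 is an
unknot and, for i < n, K_(i+1) is a meridian circle of the earlier component K_(parent i), parent i ≤ i
(different meridian circles being disjoint and unlinked with each other). K_i has framing `framing i`. -/
structure TreeLink where
  n : ℕ
  parent : Fin n → Fin (n + 1)
  parent_le : ∀ i : Fin n, (parent i : ℕ) ≤ i
  framing : Fin (n + 1) → ℤ

namespace TreeLink

/-- The linking matrix, with the framings on the diagonal (the components are oriented so that a meridian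
circle has linking number 1 with the component it encircles). -/
def linking (L : TreeLink) : Matrix (Fin (L.n + 1)) (Fin (L.n + 1)) ℤ :=
  Matrix.of fun i j => if i = j then L.framing i
    else if ∃ k : Fin L.n, (i = k.succ ∧ j = L.parent k) ∨ (j = k.succ ∧ i = L.parent k) then 1 else 0

/-- The quadratic form of the linking matrix. -/
noncomputable def form (L : TreeLink) : QuadraticForm ℝ (Fin (L.n + 1) → ℝ) :=
  (L.linking.map (Int.cast : ℤ → ℝ)).toQuadraticForm'

/-- The number b_+ of positive eigenvalues of the linking matrix, i.e. the largest dimension of a subspace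
on which its form is positive definite. -/
noncomputable def bplus (L : TreeLink) : ℕ := sigPos L.form

/-- The number b_- of negative eigenvalues of the linking matrix, i.e. the largest dimension of a subspace
on which its form is negative definite. -/
noncomputable def bminus (L : TreeLink) : ℕ := sigNeg L.form

/-- The nullity b_0 of the linking matrix (the first Betti number of the manifold). -/
noncomputable def bzero (L : TreeLink) : ℕ := L.n + 1 - L.bplus - L.bminus

/-- The coloured invariant J_L (c_0, ..., c_n) of the framed link, component K_i being coloured by the module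
of dimension c_i, normalised to be [c] on the 0-framed unknot coloured by c. Adding, to a link with a
component coloured by a, a 0-framed meridian circle of this component coloured by b multiplies the
invariant by [a b] / [a], and the framings contribute twists. -/
noncomputable def coloured (L : TreeLink) (r : ℕ) (c : Fin (L.n + 1) → ℕ) : ℂ :=
  (qint r (c 0) : ℂ) * (∏ i : Fin L.n, ((qint r (c (L.parent i) * c i.succ) / qint r (c (L.parent i)) : ℝ) : ℂ)) *
    ∏ i, twist r (c i) ^ L.framing i

/-- The Reshetikhin-Turaev quantum SU(2) invariant at r = k + 2 of the closed oriented 3-manifold obtained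
from S^3 by surgery along the framed link L, normalised to be 1 on S^3:
C_+ ^ (-b_+) * C_- ^ (-b_-) * D ^ (-b_0) * ∑ [c_0] ... [c_n] J_L (c_0, ..., c_n),
the sum over all colourings of the components. -/
noncomputable def tau (L : TreeLink) (r : ℕ) : ℂ :=
  gauss r 1 ^ (-(L.bplus : ℤ)) * gauss r (-1) ^ (-(L.bminus : ℤ)) * (dtot r : ℂ) ^ (-(L.bzero : ℤ)) *
    ∑ c ∈ Fintype.piFinset fun _ : Fin (L.n + 1) => colours r, (∏ i, (qint r (c i) : ℂ)) * L.coloured r c

end TreeLink

/-- The 0-framed unknot; surgery along it gives S^1 x S^2. -/
def unknotZero : TreeLink where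
  n := 0
  parent := fun i => i.elim0
  parent_le := fun i => i.elim0
  framing := ![0]

/-- The link of the manifold M: a Hopf link K_0, K_1 with both framings 0, two meridian circles K_2, K_3 of
K_0 with framings 2 and -2, and two meridian circles K_4, K_5 of K_1 with framings 2 and -2. (Each of the
two trees K_0, K_2, K_3 and K_1, K_4, K_5 gives the orientable twisted interval bundle over the Klein bottle;
M is the Hantzsche-Wendt flat 3-manifold. This remark is not used anywhere.) -/
def linkM : TreeLink where
  n := 5
  parent := ![0, 0, 0, 1, 1]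
  parent_le := by decide
  framing := ![0, 0, 2, -2, 2, -2]

/-- Z_k (M) = tau_r (M) / tau_r (S^1 x S^2), as a function of r = k + 2, for M given by surgery along L. -/
noncomputable def Zinv (L : TreeLink) (r : ℕ) : ℂ := L.tau r / unknotZero.tau r

/-- The sequence Z (a function of r) has the asymptotic expansion of the conjecture with phases
c 0, ..., c m: there are rational d_j, rational I_j, positive v_j and complex a_{j,e} (e ≥ 1) such that for
every E the distance of Z r to the sum over j of
v_j * exp (2 π i (r c_j + I_j / 8)) * r ^ d_j * (1 + ∑_{e=1}^E a_{j,e} r ^ (-e))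
is at most C_E * r ^ (max_j d_j - E - 1) for every integer r ≥ 2. -/
def HasExpansion (Z : ℕ → ℂ) (m : ℕ) (c : Fin (m + 1) → ℝ) : Prop :=
  ∃ (d I : Fin (m + 1) → ℚ) (v : Fin (m + 1) → ℝ) (a : Fin (m + 1) → ℕ → ℂ), (∀ j, 0 < v j) ∧
    ∀ E : ℕ, ∃ C : ℝ, ∀ r : ℕ, 2 ≤ r →
      ‖Z r - ∑ j, (v j : ℂ) * Complex.exp (2 * Real.pi * Complex.I * (r * (c j : ℂ) + (I j : ℂ) / 8)) *
          (((r : ℝ) ^ (d j : ℝ) : ℝ) : ℂ) * (1 + ∑ e ∈ Finset.Icc 1 E, a j e * ((r : ℂ) ^ e)⁻¹)‖ ≤
        C * (r : ℝ) ^ (((Finset.univ.sup' Finset.univ_nonempty d : ℚ) : ℝ) - E - 1)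

end TreeWRT
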