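import Mathlib
import Pool.Agent.H833R2.AECDefs

set_option autoImplicit false

open Finset QuadraticMap

namespace TreeWRT

/-! ### The signatures of the two linking matrices -/

lemma linking_linkM : (linkM.linking : Matrix (Fin 6) (Fin 6) ℤ) = !![0, 1, 1, 1, 0, 0; 1, 0, 0, 0, 1, 1; 1, 0, 2, 0, 0, 0;
      1, 0, 0, -2, 0, 0; 0, 1, 0, 0, 2, 0; 0, 1, 0, 0, 0, -2] := by decide

lemma linking_unknot : (unknotZero.linking : Matrix (Fin 1) (Fin 1) ℤ) = !![0] := by decide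

lemma form_apply {n : ℕ} (M : Matrix (Fin n) (Fin n) ℝ) (x : Fin n → ℝ) :
    M.toQuadraticForm' x = x ⬝ᵥ M.mulVec x := by
  simp [Matrix.toQuadraticForm', Matrix.toLinearMap₂'_apply']

/-- The linking matrix of linkM. -/
def matM : Matrix (Fin 6) (Fin 6) ℤ := !![0, 1, 1, 1, 0, 0; 1, 0, 0, 0, 1, 1; 1, 0, 2, 0, 0, 0;
      1, 0, 0, -2, 0, 0; 0, 1, 0, 0, 2, 0; 0, 1, 0, 0, 0, -2]

lemma matM_eq : (linkM.linking : Matrix (Fin 6) (Fin 6) ℤ) = matM := linking_linkM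

lemma quad_matM (x : Fin 6 → ℝ) : x ⬝ᵥ (matM.map (Int.cast : ℤ → ℝ)).mulVec x =
    2 * x 0 * x 1 + 2 * x 0 * x 2 + 2 * x 0 * x 3 + 2 * x 1 * x 4 + 2 * x 1 * x 5 +
      2 * x 2 ^ 2 - 2 * x 3 ^ 2 + 2 * x 4 ^ 2 - 2 * x 5 ^ 2 := by
  simp only [Matrix.mulVec, dotProduct, Fin.sum_univ_six, Matrix.map_apply]
  simp [matM]
  ring

lemma form_linkM (x : Fin 6 → ℝ) : (linkM.form : QuadraticForm ℝ (Fin 6 → ℝ)) x =
    2 * x 0 * x 1 + 2 * x 0 * x 2 + 2 * x 0 * x 3 + 2 * x 1 * x 4 + 2 * x 1 * x 5 +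
      2 * x 2 ^ 2 - 2 * x 3 ^ 2 + 2 * x 4 ^ 2 - 2 * x 5 ^ 2 := by
  rw [← quad_matM, ← matM_eq]
  exact form_apply _ x

/-- The change of coordinates diagonalising the form of linkM. -/
noncomputable def diagM : (Fin 6 → ℝ) ≃ₗ[ℝ] (Fin 6 → ℝ) where
  toFun x := ![x 0 + x 1, x 0 - x 1, x 2 + x 0 / 2, x 3 - x 0 / 2, x 4 + x 1 / 2, x 5 - x 1 / 2]
  invFun y := ![(y 0 + y 1) / 2, (y 0 - y 1) / 2, y 2 - (y 0 + y 1) / 4, y 3 + (y 0 + y 1) / 4,
    y 4 - (y 0 - y 1) / 4, y 5 + (y 0 - y 1) / 4]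
  map_add' x y := by
    ext i; fin_cases i <;> simp <;> ring
  map_smul' c x := by
    ext i; fin_cases i <;> simp <;> ring
  left_inv x := by
    ext i; fin_cases i <;> simp <;> ring
  right_inv y := by
    ext i; fin_cases i <;> simp <;> ring

lemma equiv_linkM : QuadraticMap.Equivalent (linkM.form : QuadraticForm ℝ (Fin 6 → ℝ))
    (weightedSumSquares ℝ (![1 / 2, -1 / 2, 2, -2, 2, -2] : Fin 6 → ℝ)) := by
  refine ⟨⟨diagM, fun x => ?_⟩⟩
  rw [form_linkM]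
  have e : ∀ x : Fin 6 → ℝ, weightedSumSquares ℝ (![1 / 2, -1 / 2, 2, -2, 2, -2] : Fin 6 → ℝ) (diagM x) =
      2 * x 0 * x 1 + 2 * x 0 * x 2 + 2 * x 0 * x 3 + 2 * x 1 * x 4 + 2 * x 1 * x 5 +
      2 * x 2 ^ 2 - 2 * x 3 ^ 2 + 2 * x 4 ^ 2 - 2 * x 5 ^ 2 := by
    intro x
    have e2 : diagM x = ![x 0 + x 1, x 0 - x 1, x 2 + x 0 / 2, x 3 - x 0 / 2, x 4 + x 1 / 2, x 5 - x 1 / 2] := rfl
    rw [weightedSumSquares_apply, Fin.sum_univ_six, e2]
    simp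
    ring
  exact e x

lemma bplus_linkM : linkM.bplus = 3 := by
  have h := QuadraticForm.sigPos_of_equiv_weightedSumSquares equiv_linkM
  have h2 : {i | 0 < (![1 / 2, -1 / 2, 2, -2, 2, -2] : Fin 6 → ℝ) i} = ((({0, 2, 4} : Finset (Fin 6))) : Set (Fin 6)) := by
    ext i; fin_cases i <;> simp <;> norm_num
  rw [h2, Set.ncard_coe_finset] at h
  exact h

lemma bminus_linkM : linkM.bminus = 3 := by
  have h := QuadraticForm.sigNeg_of_equiv_weightedSumSquares equiv_linkM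
  have h2 : {i | (![1 / 2, -1 / 2, 2, -2, 2, -2] : Fin 6 → ℝ) i < 0} = ((({1, 3, 5} : Finset (Fin 6))) : Set (Fin 6)) := by
    ext i; fin_cases i <;> simp <;> norm_num
  rw [h2, Set.ncard_coe_finset] at h
  exact h

lemma bzero_linkM : linkM.bzero = 0 := by
  rw [TreeLink.bzero, bplus_linkM, bminus_linkM]; rfl

lemma equiv_unknot : QuadraticMap.Equivalent (unknotZero.form : QuadraticForm ℝ (Fin 1 → ℝ))
    (weightedSumSquares ℝ (![0] : Fin 1 → ℝ)) := by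
  refine ⟨⟨LinearEquiv.refl ℝ _, fun x => ?_⟩⟩
  have h : (unknotZero.form : QuadraticForm ℝ (Fin 1 → ℝ)) x = x ⬝ᵥ ((unknotZero.linking : Matrix (Fin 1) (Fin 1) ℤ).map (Int.cast : ℤ → ℝ)).mulVec x :=
    form_apply _ x
  rw [h, linking_unknot]
  simp [weightedSumSquares_apply, Matrix.mulVec, dotProduct]

lemma bplus_unknot : unknotZero.bplus = 0 := by
  have h := QuadraticForm.sigPos_of_equiv_weightedSumSquares equiv_unknot
  have h2 : {i | 0 < (![0] : Fin 1 → ℝ) i} = ∅ := by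
    ext i; fin_cases i; simp
  rw [h2, Set.ncard_empty] at h
  exact h

lemma bminus_unknot : unknotZero.bminus = 0 := by
  have h := QuadraticForm.sigNeg_of_equiv_weightedSumSquares equiv_unknot
  have h2 : {i | (![0] : Fin 1 → ℝ) i < 0} = ∅ := by
    ext i; fin_cases i; simp
  rw [h2, Set.ncard_empty] at h
  exact h

lemma bzero_unknot : unknotZero.bzero = 1 := by
  rw [TreeLink.bzero, bplus_unknot, bminus_unknot]; rfl

end TreeWRT
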