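import Mathlib
import Pool.Agent.H833R2.AECDefs

set_option autoImplicit false

open Finset

namespace TreeWRT

/-! ### Sums over colourings -/

lemma sum_pi_succ {n : ℕ} (s : Finset ℕ) (F : (Fin (n + 1) → ℕ) → ℂ) :
    ∑ c ∈ Fintype.piFinset (fun _ : Fin (n + 1) => s), F c =
      ∑ a ∈ s, ∑ c ∈ Fintype.piFinset (fun _ : Fin n => s), F (Fin.cons a c) := by
  rw [← Finset.sum_product']
  refine Finset.sum_bij' (fun c _ => (c 0, Fin.tail c)) (fun p _ => Fin.cons p.1 p.2) ?_ ?_ ?_ ?_ ?_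
  · intro c hc
    rw [Fintype.mem_piFinset] at hc
    simp only [Finset.mem_product, Fintype.mem_piFinset]
    exact ⟨hc 0, fun i => hc i.succ⟩
  · intro p hp
    simp only [Finset.mem_product, Fintype.mem_piFinset] at hp
    rw [Fintype.mem_piFinset]
    intro i
    refine Fin.cases ?_ (fun j => ?_) i
    · simpa using hp.1
    · simpa using hp.2 j
  · intro c _; simp
  · intro p _; simp
  · intro c _; simp

lemma sum_pi_zero (s : Finset ℕ) (F : (Fin 0 → ℕ) → ℂ) :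
    ∑ c ∈ Fintype.piFinset (fun _ : Fin 0 => s), F c = F ![] := by
  rw [Fintype.piFinset_of_isEmpty]
  simp only [Finset.univ_unique, Finset.sum_singleton]
  congr 1

/-! ### The exponential -/

/-- exp (π i x / r) -/
noncomputable def ee (r : ℕ) (x : ℤ) : ℂ := Complex.exp (Real.pi * Complex.I * x / r)

lemma ee_add (r : ℕ) (x y : ℤ) : ee r (x + y) = ee r x * ee r y := by
  rw [ee, ee, ee, ← Complex.exp_add]; congr 1; push_cast; ring

lemma ee_zero (r : ℕ) : ee r 0 = 1 := by simp [ee]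

lemma ee_ne (r : ℕ) (x : ℤ) : ee r x ≠ 0 := Complex.exp_ne_zero _

lemma ee_neg (r : ℕ) (x : ℤ) : ee r (-x) = (ee r x)⁻¹ := by
  rw [ee, ee, ← Complex.exp_neg]; congr 1; push_cast; ring

lemma ee_conj (r : ℕ) (x : ℤ) : (starRingEnd ℂ) (ee r x) = ee r (-x) := by
  rw [ee, ee, ← Complex.exp_conj]; congr 1
  simp

lemma ee_norm (r : ℕ) (x : ℤ) : ‖ee r x‖ = 1 := by
  rw [ee, Complex.norm_exp]
  simp

lemma ee_pow (r : ℕ) (x : ℤ) (n : ℕ) : ee r x ^ n = ee r (x * n) := by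
  rw [ee, ee, ← Complex.exp_nat_mul]; congr 1; push_cast; ring

lemma ee_period {r : ℕ} (hr : 0 < r) (n : ℤ) : ee r (2 * r * n) = 1 := by
  rw [ee, Complex.exp_eq_one_iff]
  refine ⟨n, ?_⟩
  have : (r : ℂ) ≠ 0 := by exact_mod_cast hr.ne'
  push_cast; field_simp

lemma ee_r {r : ℕ} (hr : 0 < r) : ee r r = -1 := by
  rw [ee]
  have : (r : ℂ) ≠ 0 := by exact_mod_cast hr.ne'
  rw [show (Real.pi : ℂ) * Complex.I * ((r : ℤ) : ℂ) / r = Real.pi * Complex.I by
    push_cast; field_simp]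
  exact Complex.exp_pi_mul_I

lemma ee_r_mul {r : ℕ} (hr : 0 < r) (n : ℕ) : ee r (r * n) = (-1) ^ n := by
  rw [← ee_pow, ee_r hr]

lemma ee_eq_one {r : ℕ} (hr : 0 < r) {x : ℤ} (h : ee r x = 1) : (2 * r : ℤ) ∣ x := by
  rw [ee, Complex.exp_eq_one_iff] at h
  obtain ⟨n, hn⟩ := h
  have hr' : (r : ℂ) ≠ 0 := by exact_mod_cast hr.ne'
  have hpi : (Real.pi : ℂ) ≠ 0 := by exact_mod_cast Real.pi_ne_zero
  have h1 : (x : ℂ) = 2 * r * n := by
    have h2 := hn
    field_simp at h2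
    have h3 : (Real.pi * Complex.I : ℂ) * x = (Real.pi * Complex.I) * (2 * r * n) := by
      linear_combination (Real.pi * Complex.I : ℂ) * h2
    exact mul_left_cancel₀ (mul_ne_zero hpi Complex.I_ne_zero) h3
  exact ⟨n, by exact_mod_cast h1⟩

/-- Geometric sums. -/
lemma geom_zero {r N : ℕ} {x : ℤ} (h1 : ee r (x * N) = 1) (h2 : ee r x ≠ 1) :
    ∑ m ∈ range N, ee r (x * m) = 0 := by
  have : ∀ m : ℕ, ee r (x * m) = ee r x ^ m := fun m => (ee_pow r x m).symm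
  simp_rw [this]
  rw [geom_sum_eq h2, ee_pow, h1]; simp

/-- Shift invariance of sums over a period. -/
lemma shift_one {N : ℕ} (f : ℤ → ℂ) (hf : ∀ x, f (x + N) = f x) (a : ℤ) :
    ∑ m ∈ range N, f (m + (a + 1)) = ∑ m ∈ range N, f (m + a) := by
  have h1 := Finset.sum_range_succ (fun m : ℕ => f (m + a)) N
  have h2 := Finset.sum_range_succ' (fun m : ℕ => f (m + a)) N
  have h3 : f (((N : ℕ) : ℤ) + a) = f (((0 : ℕ) : ℤ) + a) := by
    rw [add_comm, hf]; simp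
  rw [h1, h3] at h2
  have h4 := add_right_cancel h2
  rw [h4]
  refine Finset.sum_congr rfl fun m _ => ?_
  congr 1; push_cast; ring

lemma shift_nat {N : ℕ} (f : ℤ → ℂ) (hf : ∀ x, f (x + N) = f x) (a : ℕ) :
    ∑ m ∈ range N, f (m + a) = ∑ m ∈ range N, f m := by
  induction a with
  | zero => simp
  | succ a ih =>
    rw [← ih, ← shift_one f hf a]
    refine Finset.sum_congr rfl fun m _ => ?_
    push_cast; rfl

/-- The square of the absolute value of a sum over a period. -/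
lemma norm_sq_sum {N : ℕ} (f : ℤ → ℂ) (hf : ∀ x, f (x + N) = f x) :
    (∑ m ∈ range N, f m) * (starRingEnd ℂ) (∑ m ∈ range N, f m) =
      ∑ d ∈ range N, ∑ m ∈ range N, f (d + m) * (starRingEnd ℂ) (f m) := by
  rw [map_sum, Finset.mul_sum, Finset.sum_comm]
  refine Finset.sum_congr rfl fun m _ => ?_
  rw [← Finset.sum_mul, shift_nat f hf m]

/-- Even functions of period 2 r vanishing at 0 and r. -/
lemma sum_even {r : ℕ} (hr : 0 < r) (f : ℤ → ℂ) (hp : ∀ x, f (x + ((2 * r : ℕ) : ℤ)) = f x)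
    (he : ∀ x, f (-x) = f x) (h0 : f 0 = 0) (h1 : f r = 0) :
    ∑ m ∈ range (2 * r), f m = 2 * ∑ m ∈ colours r, f m := by
  have hA : ∑ m ∈ range r, f m = ∑ m ∈ colours r, f m := by
    obtain ⟨n, rfl⟩ : ∃ n, r = n + 1 := ⟨r - 1, by omega⟩
    rw [Finset.sum_range_succ', Nat.cast_zero, h0, add_zero]
    refine Finset.sum_bij' (fun m _ => m + 1) (fun m _ => m - 1) ?_ ?_ ?_ ?_ ?_
    · intro m hm; simp only [colours, Finset.mem_Ioo, Finset.mem_range] at hm ⊢; omega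
    · intro m hm; simp only [colours, Finset.mem_Ioo, Finset.mem_range] at hm ⊢; omega
    · intro m hm; simp
    · intro m hm; simp only [colours, Finset.mem_Ioo] at hm; omega
    · intro m hm; rfl
  have hB : ∑ m ∈ range r, f ((r + m : ℕ) : ℤ) = ∑ m ∈ range r, f m := by
    have e1 : ∀ m ∈ range r, f ((r + m : ℕ) : ℤ) = f (((r : ℤ) - m)) := by
      intro m _
      rw [← he, ← hp]; congr 1; push_cast; ring
    rw [Finset.sum_congr rfl e1, ← Finset.sum_range_reflect (fun m : ℕ => f m) r]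
    obtain ⟨n, rfl⟩ : ∃ n, r = n + 1 := ⟨r - 1, by omega⟩
    rw [Finset.sum_range_succ', Finset.sum_range_succ]
    have e2 : f (((n + 1 : ℕ) : ℤ) - ((0 : ℕ) : ℤ)) = 0 := by simpa using h1
    have e3 : f ((n + 1 - 1 - n : ℕ) : ℤ) = 0 := by
      rw [show n + 1 - 1 - n = 0 by omega]; simpa using h0
    rw [e2, e3]
    congr 1
    refine Finset.sum_congr rfl fun m hm => ?_
    rw [Finset.mem_range] at hm
    congr 1
    push_cast
    omega
  rw [two_mul, Finset.sum_range_add, hA, hB, hA, two_mul]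

/-! ### Trigonometric functions through the exponential -/

lemma sin_ee (r : ℕ) (m : ℤ) : ((Real.sin (Real.pi * m / r) : ℝ) : ℂ) = (ee r m - ee r (-m)) / (2 * Complex.I) := by
  rw [Complex.ofReal_sin, Complex.sin, ee, ee]
  have h1 : Complex.exp (((Real.pi * m / r : ℝ) : ℂ) * Complex.I) = Complex.exp (Real.pi * Complex.I * m / r) := by
    congr 1; push_cast; ring
  have h2 : Complex.exp (-((Real.pi * m / r : ℝ) : ℂ) * Complex.I) = Complex.exp (Real.pi * Complex.I * ((-m : ℤ) : ℂ) / r) := by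
    congr 1; push_cast; ring
  rw [h1, h2]
  have hI := Complex.I_ne_zero
  field_simp
  linear_combination (Complex.exp (Real.pi * Complex.I * ((-m : ℤ) : ℂ) / r) - Complex.exp (Real.pi * Complex.I * m / r)) * Complex.I_sq

lemma cos_ee (r : ℕ) (m : ℤ) : ((Real.cos (Real.pi * m / r) : ℝ) : ℂ) = (ee r m + ee r (-m)) / 2 := by
  rw [Complex.ofReal_cos, Complex.cos, ee, ee]
  have h1 : Complex.exp (((Real.pi * m / r : ℝ) : ℂ) * Complex.I) = Complex.exp (Real.pi * Complex.I * m / r) := by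
    congr 1; push_cast; ring
  have h2 : Complex.exp (-((Real.pi * m / r : ℝ) : ℂ) * Complex.I) = Complex.exp (Real.pi * Complex.I * ((-m : ℤ) : ℂ) / r) := by
    congr 1; push_cast; ring
  rw [h1, h2]

/-- |1 - exp (-π i j / r)|^2 = 4 sin^2 (π j / 2 r) -/
lemma one_sub_ee (r : ℕ) (j : ℤ) : (1 - ee r (-j)) * (starRingEnd ℂ) (1 - ee r (-j)) =
    4 * ((Real.sin (Real.pi * j / (2 * r)) : ℝ) : ℂ) ^ 2 := by
  have h : 4 * (Real.sin (Real.pi * j / (2 * r))) ^ 2 = 2 - 2 * Real.cos (Real.pi * j / r) := by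
    have := Real.cos_sq' (Real.pi * j / (2 * r))
    have h2 := Real.cos_two_mul (Real.pi * j / (2 * r))
    rw [show 2 * (Real.pi * j / (2 * r)) = Real.pi * j / r by
      by_cases hr : (r : ℝ) = 0
      · simp [hr]
      · field_simp] at h2
    linarith
  have h' : (4 : ℂ) * ((Real.sin (Real.pi * j / (2 * r)) : ℝ) : ℂ) ^ 2 = 2 - 2 * ((Real.cos (Real.pi * j / r) : ℝ) : ℂ) := by
    exact_mod_cast h
  rw [h', cos_ee, map_sub, map_one, ee_conj, neg_neg]
  have : ee r (-j) * ee r j = 1 := by rw [← ee_add]; simp [ee_zero]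
  linear_combination this

/-! ### Gauss sums -/

/-- The Gauss sum ∑ exp (π i (m^2 + k m) / r) over m modulo 2 r. -/
noncomputable def gs (r : ℕ) (k : ℤ) : ℂ := ∑ m ∈ range (2 * r), ee r ((m : ℤ) ^ 2 + k * m)

lemma ee_period' {r : ℕ} (hr : 0 < r) (x n : ℤ) : ee r (x + 2 * r * n) = ee r x := by
  rw [ee_add, ee_period hr, mul_one]

lemma gs_period {r : ℕ} (hr : 0 < r) (k x : ℤ) :
    ee r ((x + ((2 * r : ℕ) : ℤ)) ^ 2 + k * (x + ((2 * r : ℕ) : ℤ))) = ee r (x ^ 2 + k * x) := by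
  rw [show (x + ((2 * r : ℕ) : ℤ)) ^ 2 + k * (x + ((2 * r : ℕ) : ℤ)) = (x ^ 2 + k * x) + 2 * r * (2 * x + 2 * r + k) by
    push_cast; ring, ee_period' hr]

lemma gs_step {r : ℕ} (hr : 0 < r) (k : ℤ) : gs r (k + 2) = ee r (-(k + 1)) * gs r k := by
  have h := shift_nat (N := 2 * r) (fun x => ee r (x ^ 2 + k * x)) (fun x => gs_period hr k x) 1
  rw [gs, gs, ← h, Finset.mul_sum]
  refine Finset.sum_congr rfl fun m _ => ?_
  rw [← ee_add]; congr 1; push_cast; ring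

lemma gs_neg_nat {r : ℕ} (hr : 0 < r) (k : ℕ) : gs r (-k) = gs r k := by
  have h := shift_nat (N := 2 * r) (fun x => ee r (x ^ 2 + (-(k : ℤ)) * x)) (fun x => gs_period hr _ x) k
  rw [gs, gs, ← h]
  refine Finset.sum_congr rfl fun m _ => ?_
  congr 1; push_cast; ring

lemma gs_norm {r : ℕ} (hr : 0 < r) (k : ℕ) : gs r k * (starRingEnd ℂ) (gs r k) = 2 * r * (1 + (-1) ^ (r + k)) := by
  have h := norm_sq_sum (N := 2 * r) (fun x => ee r (x ^ 2 + k * x)) (fun x => gs_period hr k x)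
  rw [gs, h]
  have h1 : ∀ d ∈ range (2 * r), ∑ m ∈ range (2 * r), ee r (((d : ℤ) + m) ^ 2 + k * (d + m)) * (starRingEnd ℂ) (ee r ((m : ℤ) ^ 2 + k * m)) =
      if d = 0 then 2 * (r : ℂ) else if d = r then 2 * r * (-1) ^ (r + k) else 0 := by
    intro d hd
    have h2 : ∀ m : ℕ, ee r (((d : ℤ) + m) ^ 2 + k * (d + m)) * (starRingEnd ℂ) (ee r ((m : ℤ) ^ 2 + k * m)) =
        ee r (d ^ 2 + k * d) * ee r ((2 * d) * m) := by
      intro m
      rw [ee_conj, ← ee_add, ← ee_add]; congr 1; ring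
    simp_rw [h2]
    rw [← Finset.mul_sum]
    rw [Finset.mem_range] at hd
    by_cases h0 : d = 0
    · subst h0
      simp [ee_zero]
    rw [if_neg h0]
    by_cases h1 : d = r
    · subst h1
      rw [if_pos rfl]
      have h3 : ∀ m : ℕ, ee d ((2 * (d : ℤ)) * m) = 1 := fun m => ee_period hr m
      simp_rw [h3]
      rw [Finset.sum_const, Finset.card_range]
      rw [show (d : ℤ) ^ 2 + k * d = d * ((d + k : ℕ) : ℤ) by push_cast; ring, ee_r_mul hr]
      simp only [nsmul_eq_mul]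
      push_cast; ring
    · rw [if_neg h1, geom_zero (N := 2 * r), mul_zero]
      · rw [show (2 * (d : ℤ)) * ((2 * r : ℕ) : ℤ) = 2 * r * (2 * d) by push_cast; ring]
        exact ee_period hr _
      · intro h4
        have h5 := ee_eq_one hr h4
        have h6 : (r : ℤ) ∣ d := by
          obtain ⟨c, hc⟩ := h5
          exact ⟨c, by linarith⟩
        have h7 : r ∣ d := by exact_mod_cast h6
        obtain ⟨c, hc⟩ := h7
        have : c < 2 := by
          by_contra h8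
          push Not at h8
          have : r * 2 ≤ r * c := Nat.mul_le_mul_left _ h8
          omega
        interval_cases c <;> omega
  rw [Finset.sum_congr rfl h1]
  rw [Finset.sum_ite, Finset.sum_ite]
  simp only [Finset.sum_const_zero, add_zero, Finset.sum_const, Finset.filter_filter]
  have c1 : ((range (2 * r)).filter (fun d => d = 0)).card = 1 := by
    rw [Finset.filter_eq', if_pos (by simp; omega)]; simp
  have c2 : ((range (2 * r)).filter (fun d => ¬ d = 0 ∧ d = r)).card = 1 := by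
    have : (range (2 * r)).filter (fun d => ¬ d = 0 ∧ d = r) = {r} := by
      ext d; simp only [Finset.mem_filter, Finset.mem_range, Finset.mem_singleton]; omega
    rw [this]; simp
  rw [c1, c2]
  simp only [one_smul]
  ring

/-- The sum ∑ sin (π m / r) sin (π j m / r) exp (π i m^2 / r) over the colours m. -/
noncomputable def ps (r j : ℕ) : ℂ :=
  ∑ m ∈ colours r, ((Real.sin (Real.pi * m / r) : ℝ) : ℂ) * ((Real.sin (Real.pi * (j * m : ℕ) / r) : ℝ) : ℂ) *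
    ee r ((m : ℤ) ^ 2)

lemma sum_quad (r : ℕ) (j : ℤ) : ∑ m ∈ range (2 * r), (ee r m - ee r (-m)) * (ee r (j * m) - ee r (-(j * m))) * ee r ((m : ℤ) ^ 2) =
    gs r (j + 1) + gs r (-(j + 1)) - gs r (j - 1) - gs r (-(j - 1)) := by
  simp only [gs, ← Finset.sum_add_distrib, ← Finset.sum_sub_distrib]
  refine Finset.sum_congr rfl fun m _ => ?_
  have e1 : ee r ((m : ℤ) ^ 2 + (j + 1) * m) = ee r m * ee r (j * m) * ee r ((m : ℤ) ^ 2) := by
    rw [← ee_add, ← ee_add]; congr 1; ring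
  have e2 : ee r ((m : ℤ) ^ 2 + -(j + 1) * m) = ee r (-m) * ee r (-(j * m)) * ee r ((m : ℤ) ^ 2) := by
    rw [← ee_add, ← ee_add]; congr 1; ring
  have e3 : ee r ((m : ℤ) ^ 2 + (j - 1) * m) = ee r (-m) * ee r (j * m) * ee r ((m : ℤ) ^ 2) := by
    rw [← ee_add, ← ee_add]; congr 1; ring
  have e4 : ee r ((m : ℤ) ^ 2 + -(j - 1) * m) = ee r m * ee r (-(j * m)) * ee r ((m : ℤ) ^ 2) := by
    rw [← ee_add, ← ee_add]; congr 1; ring
  rw [e1, e2, e3, e4]; ring

lemma ps_eq {r : ℕ} (hr : 0 < r) (j : ℕ) : ps r (j + 1) = (1 - ee r (-((j + 1 : ℕ) : ℤ))) * gs r j / 4 := by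
  have h1 : ∀ m : ℕ, ((Real.sin (Real.pi * m / r) : ℝ) : ℂ) * ((Real.sin (Real.pi * ((j + 1) * m : ℕ) / r) : ℝ) : ℂ) *
      ee r ((m : ℤ) ^ 2) = -(1 / 4) * ((fun m : ℤ => (ee r m - ee r (-m)) * (ee r (((j : ℤ) + 1) * m) - ee r (-(((j : ℤ) + 1) * m))) * ee r (m ^ 2)) m) := by
    intro m
    have h2 := sin_ee r m
    have h3 := sin_ee r (((j : ℤ) + 1) * m)
    push_cast at h2 h3 ⊢
    rw [h2, h3]
    have hI := Complex.I_ne_zero
    have hI2 := Complex.I_sq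
    field_simp
    rw [hI2]; ring
  rw [ps]
  simp_rw [h1]
  rw [← Finset.mul_sum]
  have h4 := sum_even hr (fun m : ℤ => (ee r m - ee r (-m)) * (ee r (((j : ℤ) + 1) * m) - ee r (-(((j : ℤ) + 1) * m))) * ee r (m ^ 2))
    ?_ ?_ ?_ ?_
  · have h5 : ∑ m ∈ colours r, (fun m : ℤ => (ee r m - ee r (-m)) * (ee r (((j : ℤ) + 1) * m) - ee r (-(((j : ℤ) + 1) * m))) * ee r (m ^ 2)) m
        = (1 / 2) * ∑ m ∈ range (2 * r), (fun m : ℤ => (ee r m - ee r (-m)) * (ee r (((j : ℤ) + 1) * m) - ee r (-(((j : ℤ) + 1) * m))) * ee r (m ^ 2)) m := by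
      rw [h4]; ring
    rw [h5, sum_quad]
    have e1 : gs r ((j : ℤ) + 1 + 1) = ee r (-(j + 1)) * gs r j := by
      have := gs_step hr j
      rw [← this]; congr 1
    have e2 : gs r (-((j : ℤ) + 1 - 1)) = gs r j := by
      rw [show -((j : ℤ) + 1 - 1) = -j by ring]; exact gs_neg_nat hr j
    have e3 : gs r (-((j : ℤ) + 1 + 1)) = ee r (-(j + 1)) * gs r j := by
      have := gs_neg_nat hr (j + 2)
      rw [show -((j : ℤ) + 1 + 1) = -((j + 2 : ℕ) : ℤ) by push_cast; ring, this, ← e1]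
      congr 1
    have e4 : gs r ((j : ℤ) + 1 - 1) = gs r j := by congr 1; ring
    rw [e1, e2, e3, e4]
    push_cast
    ring
  · intro x
    have t1 : ee r (x + ((2 * r : ℕ) : ℤ)) = ee r x := by
      rw [show x + ((2 * r : ℕ) : ℤ) = x + 2 * r * 1 by push_cast; ring, ee_period' hr]
    have t2 : ee r (-(x + ((2 * r : ℕ) : ℤ))) = ee r (-x) := by
      rw [show -(x + ((2 * r : ℕ) : ℤ)) = -x + 2 * r * (-1) by push_cast; ring, ee_period' hr]
    have t3 : ee r (((j : ℤ) + 1) * (x + ((2 * r : ℕ) : ℤ))) = ee r (((j : ℤ) + 1) * x) := by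
      rw [show ((j : ℤ) + 1) * (x + ((2 * r : ℕ) : ℤ)) = ((j : ℤ) + 1) * x + 2 * r * (j + 1) by push_cast; ring, ee_period' hr]
    have t4 : ee r (-(((j : ℤ) + 1) * (x + ((2 * r : ℕ) : ℤ)))) = ee r (-(((j : ℤ) + 1) * x)) := by
      rw [show -(((j : ℤ) + 1) * (x + ((2 * r : ℕ) : ℤ))) = -(((j : ℤ) + 1) * x) + 2 * r * (-(j + 1)) by push_cast; ring, ee_period' hr]
    have t5 : ee r ((x + ((2 * r : ℕ) : ℤ)) ^ 2) = ee r (x ^ 2) := by
      rw [show (x + ((2 * r : ℕ) : ℤ)) ^ 2 = x ^ 2 + 2 * r * (2 * x + 2 * r) by push_cast; ring, ee_period' hr]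
    rw [t1, t2, t3, t4, t5]
  · intro x
    rw [neg_neg, show ((j : ℤ) + 1) * -x = -(((j : ℤ) + 1) * x) by ring, neg_neg, neg_sq]
    ring
  · simp
  · have : ee r (-(r : ℤ)) = ee r r := by
      rw [show -(r : ℤ) = r + 2 * r * (-1) by ring, ee_period' hr]
    simp [this]

/-- The square of the absolute value of the leaf sum. -/
lemma ps_norm {r : ℕ} (hr : 0 < r) (j : ℕ) (hj : 0 < j) : ps r j * (starRingEnd ℂ) (ps r j) =
    (r : ℂ) * ((Real.sin (Real.pi * j / (2 * r)) : ℝ) : ℂ) ^ 2 * ((1 - (-1) ^ (r + j)) / 2) := by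
  obtain ⟨j, rfl⟩ : ∃ n, j = n + 1 := ⟨j - 1, by omega⟩
  rw [ps_eq hr]
  simp only [map_div₀, map_mul]
  have h1 := one_sub_ee r ((j + 1 : ℕ) : ℤ)
  have h2 := gs_norm hr j
  have h3 : (starRingEnd ℂ) 4 = 4 := Complex.conj_ofNat 4
  rw [h3]
  calc (1 - ee r (-((j + 1 : ℕ) : ℤ))) * gs r j / 4 * ((starRingEnd ℂ) (1 - ee r (-((j + 1 : ℕ) : ℤ))) * (starRingEnd ℂ) (gs r j) / 4)
      = ((1 - ee r (-((j + 1 : ℕ) : ℤ))) * (starRingEnd ℂ) (1 - ee r (-((j + 1 : ℕ) : ℤ)))) * (gs r j * (starRingEnd ℂ) (gs r j)) / 16 := by ring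
    _ = _ := by
      rw [h1, h2]
      push_cast
      rw [show r + (j + 1) = (r + j) + 1 by ring, pow_succ]
      ring

/-- The Gauss sum ∑ exp (π i (m^2 + 2 k m) / (2 r)) over m modulo 2 r. -/
noncomputable def gt (r : ℕ) (k : ℤ) : ℂ := ∑ m ∈ range (2 * r), ee (2 * r) ((m : ℤ) ^ 2 + 2 * k * m)

lemma gt_period {r : ℕ} (hr : 0 < r) (k x : ℤ) :
    ee (2 * r) ((x + ((2 * r : ℕ) : ℤ)) ^ 2 + 2 * k * (x + ((2 * r : ℕ) : ℤ))) = ee (2 * r) (x ^ 2 + 2 * k * x) := by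
  have h : (x + ((2 * r : ℕ) : ℤ)) ^ 2 + 2 * k * (x + ((2 * r : ℕ) : ℤ)) = (x ^ 2 + 2 * k * x) + 2 * ((2 * r : ℕ) : ℤ) * (x + r + k) := by
    push_cast; ring
  rw [h, ee_period' (by omega : 0 < 2 * r)]

lemma gt_nat {r : ℕ} (hr : 0 < r) (k : ℕ) : gt r k = ee (2 * r) (-(k ^ 2)) * gt r 0 := by
  have h := shift_nat (N := 2 * r) (fun x => ee (2 * r) (x ^ 2 + 2 * 0 * x)) (fun x => gt_period hr 0 x) k
  rw [gt, gt, ← h, Finset.mul_sum]
  refine Finset.sum_congr rfl fun m _ => ?_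
  rw [← ee_add]; congr 1; ring

lemma gt_neg {r : ℕ} (hr : 0 < r) (k : ℕ) : gt r (-k) = ee (2 * r) (-(k ^ 2)) * gt r 0 := by
  have h := shift_nat (N := 2 * r) (fun x => ee (2 * r) (x ^ 2 + 2 * (-(k : ℤ)) * x)) (fun x => gt_period hr (-k) x) k
  rw [gt, gt, ← h, Finset.mul_sum]
  refine Finset.sum_congr rfl fun m _ => ?_
  rw [← ee_add]; congr 1; push_cast; ring

lemma gt_norm {r : ℕ} (hr : 0 < r) : gt r 0 * (starRingEnd ℂ) (gt r 0) = 2 * r := by
  have h := norm_sq_sum (N := 2 * r) (fun x => ee (2 * r) (x ^ 2 + 2 * 0 * x)) (fun x => gt_period hr 0 x)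
  rw [gt, h]
  have h1 : ∀ d ∈ range (2 * r), ∑ m ∈ range (2 * r), ee (2 * r) (((d : ℤ) + m) ^ 2 + 2 * 0 * (d + m)) * (starRingEnd ℂ) (ee (2 * r) ((m : ℤ) ^ 2 + 2 * 0 * m)) =
      if d = 0 then 2 * (r : ℂ) else 0 := by
    intro d hd
    have h2 : ∀ m : ℕ, ee (2 * r) (((d : ℤ) + m) ^ 2 + 2 * 0 * (d + m)) * (starRingEnd ℂ) (ee (2 * r) ((m : ℤ) ^ 2 + 2 * 0 * m)) =
        ee (2 * r) (d ^ 2) * ee (2 * r) ((2 * d) * m) := by
      intro m
      rw [ee_conj, ← ee_add, ← ee_add]; congr 1; ring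
    simp_rw [h2]
    rw [← Finset.mul_sum]
    rw [Finset.mem_range] at hd
    by_cases h0 : d = 0
    · subst h0
      simp [ee_zero]
    rw [if_neg h0, geom_zero (N := 2 * r), mul_zero]
    · rw [show (2 * (d : ℤ)) * ((2 * r : ℕ) : ℤ) = 2 * ((2 * r : ℕ) : ℤ) * d by push_cast; ring]
      exact ee_period (by omega) _
    · intro h4
      have h5 := ee_eq_one (by omega : 0 < 2 * r) h4
      obtain ⟨c, hc⟩ := h5
      push_cast at hc
      have h6 : (d : ℤ) = 2 * r * c := by linarith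
      have h7 : c = 0 := by
        by_contra hc0
        rcases lt_or_gt_of_ne hc0 with h8 | h8
        · have : 2 * (r : ℤ) * c < 0 := mul_neg_of_pos_of_neg (by omega) h8
          omega
        · have : 2 * (r : ℤ) * 1 ≤ 2 * (r : ℤ) * c := mul_le_mul_of_nonneg_left (by omega) (by omega)
          omega
      subst h7
      omega
  rw [Finset.sum_congr rfl h1]
  rw [Finset.sum_ite]
  simp only [Finset.sum_const_zero, add_zero, Finset.sum_const]
  have c1 : ((range (2 * r)).filter (fun d => d = 0)).card = 1 := by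
    rw [Finset.filter_eq', if_pos (by simp; omega)]; simp
  rw [c1, one_smul]

/-- The sum ∑ sin^2 (π m / r) exp (π i m^2 / (2 r)) over the colours m. -/
noncomputable def qs (r : ℕ) : ℂ :=
  ∑ m ∈ colours r, ((Real.sin (Real.pi * m / r) : ℝ) : ℂ) ^ 2 * ee (2 * r) ((m : ℤ) ^ 2)

lemma ee_double (r : ℕ) (hr : 0 < r) (x : ℤ) : ee r x = ee (2 * r) (2 * x) := by
  rw [ee, ee]; congr 1
  have : (r : ℂ) ≠ 0 := by exact_mod_cast hr.ne'
  push_cast; field_simp

lemma qs_eq {r : ℕ} (hr : 0 < r) : qs r = (1 - ee r (-2)) * gt r 0 / 4 := by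
  have h1 : ∀ m : ℕ, ((Real.sin (Real.pi * m / r) : ℝ) : ℂ) ^ 2 * ee (2 * r) ((m : ℤ) ^ 2) =
      -(1 / 4) * ((fun m : ℤ => (ee r m - ee r (-m)) ^ 2 * ee (2 * r) (m ^ 2)) m) := by
    intro m
    have h2 := sin_ee r m
    push_cast at h2 ⊢
    rw [h2]
    have hI := Complex.I_ne_zero
    have hI2 := Complex.I_sq
    field_simp
    rw [hI2]; ring
  rw [qs]
  simp_rw [h1]
  rw [← Finset.mul_sum]
  have h4 := sum_even hr (fun m : ℤ => (ee r m - ee r (-m)) ^ 2 * ee (2 * r) (m ^ 2)) ?_ ?_ ?_ ?_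
  · have h5 : ∑ m ∈ colours r, (fun m : ℤ => (ee r m - ee r (-m)) ^ 2 * ee (2 * r) (m ^ 2)) m
        = (1 / 2) * ∑ m ∈ range (2 * r), (fun m : ℤ => (ee r m - ee r (-m)) ^ 2 * ee (2 * r) (m ^ 2)) m := by
      rw [h4]; ring
    rw [h5]
    have h6 : ∑ m ∈ range (2 * r), (fun m : ℤ => (ee r m - ee r (-m)) ^ 2 * ee (2 * r) (m ^ 2)) m =
        gt r 2 + gt r (-2) - 2 * gt r 0 := by
      simp only [gt, Finset.mul_sum, ← Finset.sum_add_distrib, ← Finset.sum_sub_distrib]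
      refine Finset.sum_congr rfl fun m _ => ?_
      have e1 : ee (2 * r) ((m : ℤ) ^ 2 + 2 * 2 * m) = ee r m ^ 2 * ee (2 * r) ((m : ℤ) ^ 2) := by
        rw [ee_double r hr, ee_pow, ← ee_add]; congr 1; push_cast; ring
      have e2 : ee (2 * r) ((m : ℤ) ^ 2 + 2 * -2 * m) = ee r (-m) ^ 2 * ee (2 * r) ((m : ℤ) ^ 2) := by
        rw [ee_double r hr, ee_pow, ← ee_add]; congr 1; push_cast; ring
      have e3 : ee (2 * r) ((m : ℤ) ^ 2 + 2 * 0 * m) = ee (2 * r) ((m : ℤ) ^ 2) := by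
        congr 1; ring
      have e4 : ee r m * ee r (-m) = 1 := by rw [← ee_add]; simp [ee_zero]
      rw [e1, e2, e3]
      linear_combination (-2 * ee (2 * r) ((m : ℤ) ^ 2)) * e4
    rw [h6]
    have e1 : gt r 2 = ee r (-2) * gt r 0 := by
      have := gt_nat hr 2
      rw [Nat.cast_ofNat] at this
      rw [ee_double r hr, this]
      norm_num
    have e2 : gt r (-2) = ee r (-2) * gt r 0 := by
      have := gt_neg hr 2
      rw [Nat.cast_ofNat] at this
      rw [ee_double r hr, this]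
      norm_num
    rw [e1, e2]; ring
  · intro x
    have t1 : ee r (x + ((2 * r : ℕ) : ℤ)) = ee r x := by
      rw [show x + ((2 * r : ℕ) : ℤ) = x + 2 * r * 1 by push_cast; ring, ee_period' hr]
    have t2 : ee r (-(x + ((2 * r : ℕ) : ℤ))) = ee r (-x) := by
      rw [show -(x + ((2 * r : ℕ) : ℤ)) = -x + 2 * r * (-1) by push_cast; ring, ee_period' hr]
    have t3 : ee (2 * r) ((x + ((2 * r : ℕ) : ℤ)) ^ 2) = ee (2 * r) (x ^ 2) := by
      have h : (x + ((2 * r : ℕ) : ℤ)) ^ 2 = x ^ 2 + 2 * ((2 * r : ℕ) : ℤ) * (x + r) := by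
        push_cast; ring
      rw [h, ee_period' (by omega : 0 < 2 * r)]
    rw [t1, t2, t3]
  · intro x
    rw [neg_neg, neg_sq]
    ring
  · simp
  · have : ee r (-(r : ℤ)) = ee r r := by
      rw [show -(r : ℤ) = r + 2 * r * (-1) by ring, ee_period' hr]
    simp [this]

lemma qs_norm {r : ℕ} (hr : 0 < r) : qs r * (starRingEnd ℂ) (qs r) =
    (r : ℂ) / 2 * ((Real.sin (Real.pi / r) : ℝ) : ℂ) ^ 2 := by
  rw [qs_eq hr]
  simp only [map_div₀, map_mul]
  have h1 := one_sub_ee r 2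
  have h2 := gt_norm hr
  have h3 : (starRingEnd ℂ) 4 = 4 := Complex.conj_ofNat 4
  have h4 : Real.pi * ((2 : ℤ) : ℝ) / (2 * r) = Real.pi / r := by
    have : (r : ℝ) ≠ 0 := by exact_mod_cast hr.ne'
    push_cast; field_simp
  rw [h4] at h1
  rw [h3]
  calc (1 - ee r (-2)) * gt r 0 / 4 * ((starRingEnd ℂ) (1 - ee r (-2)) * (starRingEnd ℂ) (gt r 0) / 4)
      = ((1 - ee r (-2)) * (starRingEnd ℂ) (1 - ee r (-2))) * (gt r 0 * (starRingEnd ℂ) (gt r 0)) / 16 := by ring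
    _ = _ := by
      rw [h1, h2]
      ring

end TreeWRT
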