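import Mathlib
import Pool.Agent.H833R2.AECSum

set_option autoImplicit false

open Finset

namespace TreeWRT

lemma s1_pos {r : ℕ} (hr : 2 ≤ r) : 0 < Real.sin (Real.pi / r) := by
  have hr0 : (2 : ℝ) ≤ r := by exact_mod_cast hr
  apply Real.sin_pos_of_pos_of_lt_pi
  · positivity
  · rw [div_lt_iff₀ (by linarith)]
    nlinarith [Real.pi_pos]

lemma sin_pos_colour {r m : ℕ} (hm : m ∈ colours r) : 0 < Real.sin (Real.pi * m / r) := by
  rw [colours, Finset.mem_Ioo] at hm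
  have h1 : (0 : ℝ) < m := by exact_mod_cast hm.1
  have h2 : (m : ℝ) < r := by exact_mod_cast hm.2
  have h3 : (0 : ℝ) < r := by linarith
  apply Real.sin_pos_of_pos_of_lt_pi
  · positivity
  · rw [div_lt_iff₀ (by linarith)]
    nlinarith [Real.pi_pos]

lemma sum_sin_sq {r : ℕ} (hr : 2 ≤ r) : ∑ m ∈ colours r, ((Real.sin (Real.pi * m / r) : ℝ) : ℂ) ^ 2 = r / 2 := by
  have hr0 : 0 < r := by omega
  have h1 : ∀ m : ℕ, ((Real.sin (Real.pi * m / r) : ℝ) : ℂ) ^ 2 =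
      -(1 / 4) * ((fun m : ℤ => (ee r m - ee r (-m)) ^ 2) m) := by
    intro m
    have h2 := sin_ee r m
    push_cast at h2 ⊢
    rw [h2]
    have hI := Complex.I_ne_zero
    have hI2 := Complex.I_sq
    field_simp
    rw [hI2]; ring
  simp_rw [h1]
  rw [← Finset.mul_sum]
  have h4 := sum_even hr0 (fun m : ℤ => (ee r m - ee r (-m)) ^ 2) ?_ ?_ ?_ ?_
  · have h5 : ∑ m ∈ colours r, (fun m : ℤ => (ee r m - ee r (-m)) ^ 2) m
        = (1 / 2) * ∑ m ∈ range (2 * r), (fun m : ℤ => (ee r m - ee r (-m)) ^ 2) m := by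
      rw [h4]; ring
    rw [h5]
    have h6 : ∑ m ∈ range (2 * r), (fun m : ℤ => (ee r m - ee r (-m)) ^ 2) m =
        ∑ m ∈ range (2 * r), ee r (2 * m) + ∑ m ∈ range (2 * r), ee r (-2 * m) - ∑ m ∈ range (2 * r), 2 := by
      simp only [← Finset.sum_add_distrib, ← Finset.sum_sub_distrib]
      refine Finset.sum_congr rfl fun m _ => ?_
      have e1 : ee r (2 * m) = ee r m * ee r m := by
        rw [← ee_add]; congr 1; ring
      have e2 : ee r (-2 * m) = ee r (-m) * ee r (-m) := by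
        rw [← ee_add]; congr 1; ring
      have e4 : ee r m * ee r (-m) = 1 := by rw [← ee_add]; simp [ee_zero]
      rw [e1, e2]
      linear_combination (-2 : ℂ) * e4
    rw [h6]
    have n1 : ee r 2 ≠ 1 := by
      intro h
      have := ee_eq_one hr0 h
      have := Int.le_of_dvd (by norm_num) this
      omega
    have n2 : ee r (-2) ≠ 1 := by
      intro h
      rw [ee_neg, inv_eq_one] at h
      exact n1 h
    rw [geom_zero (by rw [show (2 : ℤ) * ((2 * r : ℕ) : ℤ) = 2 * r * 2 by push_cast; ring]; exact ee_period hr0 _) n1,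
      geom_zero (by rw [show (-2 : ℤ) * ((2 * r : ℕ) : ℤ) = 2 * r * (-2) by push_cast; ring]; exact ee_period hr0 _) n2]
    rw [Finset.sum_const, Finset.card_range, nsmul_eq_mul]
    push_cast; ring
  · intro x
    have t1 : ee r (x + ((2 * r : ℕ) : ℤ)) = ee r x := by
      rw [show x + ((2 * r : ℕ) : ℤ) = x + 2 * r * 1 by push_cast; ring, ee_period' hr0]
    have t2 : ee r (-(x + ((2 * r : ℕ) : ℤ))) = ee r (-x) := by
      rw [show -(x + ((2 * r : ℕ) : ℤ)) = -x + 2 * r * (-1) by push_cast; ring, ee_period' hr0]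
    rw [t1, t2]
  · intro x
    rw [neg_neg]
    ring
  · simp
  · have : ee r (-(r : ℤ)) = ee r r := by
      rw [show -(r : ℤ) = r + 2 * r * (-1) by ring, ee_period' hr0]
    simp [this]

lemma qint_eq (r m : ℕ) : ((qint r m : ℝ) : ℂ) = ((Real.sin (Real.pi * m / r) : ℝ) : ℂ) / ((Real.sin (Real.pi / r) : ℝ) : ℂ) := by
  rw [qint]; push_cast; rfl

lemma dtot_sq {r : ℕ} (hr : 2 ≤ r) : dtot r ^ 2 = (r : ℝ) / 2 / Real.sin (Real.pi / r) ^ 2 := by
  have h0 := s1_pos hr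
  have h1 : (∑ l ∈ colours r, qint r l ^ 2) = (r : ℝ) / 2 / Real.sin (Real.pi / r) ^ 2 := by
    have h2 : ∑ l ∈ colours r, (qint r l : ℝ) ^ 2 = (∑ m ∈ colours r, (Real.sin (Real.pi * m / r)) ^ 2) / Real.sin (Real.pi / r) ^ 2 := by
      rw [Finset.sum_div]
      refine Finset.sum_congr rfl fun m _ => ?_
      rw [qint, div_pow]
    rw [h2]
    congr 1
    have h3 := sum_sin_sq hr
    have h4 : ((∑ m ∈ colours r, (Real.sin (Real.pi * m / r)) ^ 2 : ℝ) : ℂ) = ((r / 2 : ℝ) : ℂ) := by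
      push_cast at h3 ⊢
      exact h3
    exact_mod_cast h4
  rw [dtot, Real.sq_sqrt, h1]
  exact Finset.sum_nonneg fun _ _ => sq_nonneg _

lemma dtot_pos {r : ℕ} (hr : 2 ≤ r) : 0 < dtot r := by
  have h0 := s1_pos hr
  have h1 := dtot_sq hr
  have h2 : 0 ≤ dtot r := Real.sqrt_nonneg _
  have hr0 : (2 : ℝ) ≤ r := by exact_mod_cast hr
  rcases h2.lt_or_eq with h | h
  · exact h
  · rw [← h] at h1
    have : 0 < (r : ℝ) / 2 / Real.sin (Real.pi / r) ^ 2 := by positivity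
    nlinarith

lemma twist_eq (r m : ℕ) (hr : 0 < r) : twist r m = ee (2 * r) ((m : ℤ) ^ 2 - 1) := by
  rw [twist, ee]; congr 1
  have : (r : ℂ) ≠ 0 := by exact_mod_cast hr.ne'
  push_cast; field_simp; ring

lemma gauss_one {r : ℕ} (hr : 0 < r) : gauss r 1 = ee (2 * r) (-1) * qs r / ((Real.sin (Real.pi / r) : ℝ) : ℂ) ^ 2 := by
  rw [gauss, qs, Finset.mul_sum, Finset.sum_div]
  refine Finset.sum_congr rfl fun m _ => ?_
  rw [zpow_one, twist_eq r m hr, qint_eq, sub_eq_add_neg, ee_add, div_pow]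
  ring

lemma gauss_neg {r : ℕ} (hr : 0 < r) : gauss r (-1) = (starRingEnd ℂ) (gauss r 1) := by
  rw [gauss, gauss, map_sum]
  refine Finset.sum_congr rfl fun m _ => ?_
  rw [map_mul, map_pow, Complex.conj_ofReal, zpow_one, zpow_neg, zpow_one, twist_eq r m hr, ee_conj, ee_neg]

lemma gauss_mul {r : ℕ} (hr : 2 ≤ r) : gauss r 1 * gauss r (-1) = (dtot r : ℂ) ^ 2 := by
  have hr0 : 0 < r := by omega
  have h0 := s1_pos hr
  have h1 : ((Real.sin (Real.pi / r) : ℝ) : ℂ) ≠ 0 := by exact_mod_cast h0.ne'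
  rw [gauss_neg hr0, gauss_one hr0]
  simp only [map_div₀, map_mul, map_pow, Complex.conj_ofReal]
  have h2 := qs_norm hr0
  have h3 : ee (2 * r) (-1) * (starRingEnd ℂ) (ee (2 * r) (-1)) = 1 := by
    rw [ee_conj, ← ee_add]; simp [ee_zero]
  have h4 : ((dtot r : ℝ) : ℂ) ^ 2 = ((r : ℝ) / 2 / Real.sin (Real.pi / r) ^ 2 : ℝ) := by
    rw [← dtot_sq hr]; push_cast; rfl
  rw [h4]
  calc ee (2 * r) (-1) * qs r / ((Real.sin (Real.pi / r) : ℝ) : ℂ) ^ 2 * ((starRingEnd ℂ) (ee (2 * r) (-1)) * (starRingEnd ℂ) (qs r) / ((Real.sin (Real.pi / r) : ℝ) : ℂ) ^ 2)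
      = (ee (2 * r) (-1) * (starRingEnd ℂ) (ee (2 * r) (-1))) * (qs r * (starRingEnd ℂ) (qs r)) / ((Real.sin (Real.pi / r) : ℝ) : ℂ) ^ 4 := by
        field_simp
    _ = _ := by
      rw [h3, h2]
      push_cast at h1 ⊢
      field_simp

lemma gauss_ne {r : ℕ} (hr : 2 ≤ r) : gauss r 1 ≠ 0 ∧ gauss r (-1) ≠ 0 := by
  have h := gauss_mul hr
  have hD : ((dtot r : ℝ) : ℂ) ≠ 0 := by exact_mod_cast (dtot_pos hr).ne'
  constructor
  · intro h0; rw [h0, zero_mul] at h; exact pow_ne_zero 2 hD h.symm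
  · intro h0; rw [h0, mul_zero] at h; exact pow_ne_zero 2 hD h.symm

/-! ### Leaves -/

lemma leaf_pos {r : ℕ} (hr : 0 < r) (a : ℕ) :
    ∑ m ∈ colours r, (qint r m : ℂ) * (qint r (a * m) : ℂ) * twist r m ^ (2 : ℤ) =
      ee r (-1) * ps r a / ((Real.sin (Real.pi / r) : ℝ) : ℂ) ^ 2 := by
  rw [ps, Finset.mul_sum, Finset.sum_div]
  refine Finset.sum_congr rfl fun m _ => ?_
  have h : twist r m ^ (2 : ℤ) = ee r (-1) * ee r ((m : ℤ) ^ 2) := by
    rw [twist_eq r m hr, show (2 : ℤ) = ((2 : ℕ) : ℤ) by norm_num, zpow_natCast, ee_pow, ← ee_add, ee_double r hr]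
    congr 1; push_cast; ring
  rw [h, qint_eq, qint_eq]
  ring

lemma leaf_neg {r : ℕ} (hr : 0 < r) (a : ℕ) :
    ∑ m ∈ colours r, (qint r m : ℂ) * (qint r (a * m) : ℂ) * twist r m ^ (-2 : ℤ) =
      (starRingEnd ℂ) (ee r (-1) * ps r a / ((Real.sin (Real.pi / r) : ℝ) : ℂ) ^ 2) := by
  rw [← leaf_pos hr, map_sum]
  refine Finset.sum_congr rfl fun m _ => ?_
  rw [map_mul, map_mul, Complex.conj_ofReal, Complex.conj_ofReal, map_zpow₀]
  congr 1
  rw [twist_eq r m hr, ee_conj, ee_neg, zpow_neg, inv_zpow]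

/-- The product of the two leaf sums at a vertex coloured by a. -/
lemma leaf_pair {r : ℕ} (hr : 2 ≤ r) (a : ℕ) (ha : 0 < a) :
    (∑ m ∈ colours r, (qint r m : ℂ) * (qint r (a * m) : ℂ) * twist r m ^ (2 : ℤ)) *
    (∑ m ∈ colours r, (qint r m : ℂ) * (qint r (a * m) : ℂ) * twist r m ^ (-2 : ℤ)) =
      (r : ℂ) * ((Real.sin (Real.pi * a / (2 * r)) : ℝ) : ℂ) ^ 2 * ((1 - (-1) ^ (r + a)) / 2) /
        ((Real.sin (Real.pi / r) : ℝ) : ℂ) ^ 4 := by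
  have hr0 : 0 < r := by omega
  rw [leaf_pos hr0, leaf_neg hr0]
  simp only [map_div₀, map_mul, map_pow, Complex.conj_ofReal]
  have h3 : ee r (-1) * (starRingEnd ℂ) (ee r (-1)) = 1 := by
    rw [ee_conj, ← ee_add]; simp [ee_zero]
  have h2 := ps_norm hr0 a ha
  have h1 : ((Real.sin (Real.pi / r) : ℝ) : ℂ) ≠ 0 := by exact_mod_cast (s1_pos hr).ne'
  calc ee r (-1) * ps r a / ((Real.sin (Real.pi / r) : ℝ) : ℂ) ^ 2 * ((starRingEnd ℂ) (ee r (-1)) * (starRingEnd ℂ) (ps r a) / ((Real.sin (Real.pi / r) : ℝ) : ℂ) ^ 2)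
      = (ee r (-1) * (starRingEnd ℂ) (ee r (-1))) * (ps r a * (starRingEnd ℂ) (ps r a)) / ((Real.sin (Real.pi / r) : ℝ) : ℂ) ^ 4 := by
        field_simp
    _ = _ := by rw [h3, h2, one_mul]

/-! ### The colour sums of the two links -/

lemma qint_pos {r m : ℕ} (hm : m ∈ colours r) (hr : 2 ≤ r) : 0 < qint r m :=
  div_pos (sin_pos_colour hm) (s1_pos hr)

/-- Auxiliary form of `TreeLink.coloured`. -/
noncomputable def colAux (n : ℕ) (parent : Fin n → Fin (n + 1)) (framing : Fin (n + 1) → ℤ) (r : ℕ)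
    (c : Fin (n + 1) → ℕ) : ℂ :=
  (qint r (c 0) : ℂ) * (∏ i : Fin n, ((qint r (c (parent i) * c i.succ) / qint r (c (parent i)) : ℝ) : ℂ)) *
    ∏ i, twist r (c i) ^ framing i

lemma unknot_sum (r : ℕ) : ∑ c ∈ Fintype.piFinset (fun _ : Fin (unknotZero.n + 1) => colours r),
    (∏ i, (qint r (c i) : ℂ)) * unknotZero.coloured r c = ∑ m ∈ colours r, (qint r m : ℂ) ^ 2 := by
  have h0 : ∑ c ∈ Fintype.piFinset (fun _ : Fin (unknotZero.n + 1) => colours r),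
    (∏ i, (qint r (c i) : ℂ)) * unknotZero.coloured r c = ∑ c ∈ Fintype.piFinset (fun _ : Fin (0 + 1) => colours r),
    (∏ i, (qint r (c i) : ℂ)) * colAux 0 (fun i => i.elim0) ![0] r c := rfl
  rw [h0, sum_pi_succ]
  refine Finset.sum_congr rfl fun m _ => ?_
  rw [sum_pi_zero]
  simp [colAux]
  ring

lemma alg_aux (qa qb qab qc qac tc qd qad td qe qbe te qf qbf tf : ℂ) (ha : qa ≠ 0) (hb : qb ≠ 0) :
    qa * qb * qc * qd * qe * qf * (qa * (qab / qa * (qac / qa) * (qad / qa) * (qbe / qb) * (qbf / qb)) *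
      (1 * 1 * tc * td * te * tf)) =
    qab / (qa * qb) * ((qc * qac * tc) * ((qd * qad * td) * ((qe * qbe * te) * (qf * qbf * tf)))) := by
  have h1 : qa * qa⁻¹ = 1 := mul_inv_cancel₀ ha
  have h2 : qb * qb⁻¹ = 1 := mul_inv_cancel₀ hb
  simp only [div_eq_mul_inv, mul_inv]
  generalize qa⁻¹ = ia at *
  generalize qb⁻¹ = ib at *
  linear_combination (qc * qd * qe * qf * qab * qac * qad * qbe * qbf * tc * td * te * tf * ia * ib) * ((qa * ia + 1) * (qb * ib)) * h1 +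
    (qc * qd * qe * qf * qab * qac * qad * qbe * qbf * tc * td * te * tf * ia * ib) * h2

lemma sum_four (s : Finset ℕ) (K : ℂ) (A B C D : ℕ → ℂ) :
    ∑ c ∈ s, ∑ d ∈ s, ∑ e ∈ s, ∑ f ∈ s, K * (A c * (B d * (C e * D f))) =
      K * (((∑ c ∈ s, A c) * (∑ d ∈ s, B d)) * ((∑ e ∈ s, C e) * (∑ f ∈ s, D f))) := by
  simp only [← Finset.mul_sum, ← Finset.sum_mul]
  ring

lemma linkM_term {r : ℕ} (hr : 2 ≤ r) {a b : ℕ} (ha : a ∈ colours r) (hb : b ∈ colours r) (c d e f : ℕ) :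
    (∏ i, (qint r ((![a, b, c, d, e, f] : Fin 6 → ℕ) i) : ℂ)) * colAux 5 ![0, 0, 0, 1, 1] ![0, 0, 2, -2, 2, -2] r ![a, b, c, d, e, f] =
      ((qint r (a * b) : ℂ) / (qint r a * qint r b)) *
      (((qint r c : ℂ) * (qint r (a * c) : ℂ) * twist r c ^ (2 : ℤ)) *
      (((qint r d : ℂ) * (qint r (a * d) : ℂ) * twist r d ^ (-2 : ℤ)) *
      (((qint r e : ℂ) * (qint r (b * e) : ℂ) * twist r e ^ (2 : ℤ)) *
      ((qint r f : ℂ) * (qint r (b * f) : ℂ) * twist r f ^ (-2 : ℤ))))) := by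
  have h1 : (qint r a : ℂ) ≠ 0 := by exact_mod_cast (qint_pos ha hr).ne'
  have h2 : (qint r b : ℂ) ≠ 0 := by exact_mod_cast (qint_pos hb hr).ne'
  rw [colAux, Fin.prod_univ_six, Fin.prod_univ_six, Fin.prod_univ_five]
  have e0 : (![a, b, c, d, e, f] : Fin 6 → ℕ) 0 = a := rfl
  have e1 : (![a, b, c, d, e, f] : Fin 6 → ℕ) 1 = b := rfl
  have e2 : (![a, b, c, d, e, f] : Fin 6 → ℕ) 2 = c := rfl
  have e3 : (![a, b, c, d, e, f] : Fin 6 → ℕ) 3 = d := rfl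
  have e4 : (![a, b, c, d, e, f] : Fin 6 → ℕ) 4 = e := rfl
  have e5 : (![a, b, c, d, e, f] : Fin 6 → ℕ) 5 = f := rfl
  have s0 : (0 : Fin 5).succ = 1 := rfl
  have s1 : (1 : Fin 5).succ = 2 := rfl
  have s2 : (2 : Fin 5).succ = 3 := rfl
  have s3 : (3 : Fin 5).succ = 4 := rfl
  have s4 : (4 : Fin 5).succ = 5 := rfl
  have p0 : (![0, 0, 0, 1, 1] : Fin 5 → Fin (5 + 1)) 0 = 0 := rfl
  have p1 : (![0, 0, 0, 1, 1] : Fin 5 → Fin (5 + 1)) 1 = 0 := rfl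
  have p2 : (![0, 0, 0, 1, 1] : Fin 5 → Fin (5 + 1)) 2 = 0 := rfl
  have p3 : (![0, 0, 0, 1, 1] : Fin 5 → Fin (5 + 1)) 3 = 1 := rfl
  have p4 : (![0, 0, 0, 1, 1] : Fin 5 → Fin (5 + 1)) 4 = 1 := rfl
  have f0 : (![0, 0, 2, -2, 2, -2] : Fin (5 + 1) → ℤ) 0 = 0 := rfl
  have f1 : (![0, 0, 2, -2, 2, -2] : Fin (5 + 1) → ℤ) 1 = 0 := rfl
  have f2 : (![0, 0, 2, -2, 2, -2] : Fin (5 + 1) → ℤ) 2 = 2 := rfl
  have f3 : (![0, 0, 2, -2, 2, -2] : Fin (5 + 1) → ℤ) 3 = -2 := rfl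
  have f4 : (![0, 0, 2, -2, 2, -2] : Fin (5 + 1) → ℤ) 4 = 2 := rfl
  have f5 : (![0, 0, 2, -2, 2, -2] : Fin (5 + 1) → ℤ) 5 = -2 := rfl
  rw [p0, p1, p2, p3, p4, s0, s1, s2, s3, s4, f0, f1, f2, f3, f4, f5, e0, e1, e2, e3, e4, e5, zpow_zero, zpow_zero]
  rw [Complex.ofReal_div, Complex.ofReal_div, Complex.ofReal_div, Complex.ofReal_div, Complex.ofReal_div]
  exact alg_aux _ _ _ _ _ _ _ _ _ _ _ _ _ _ _ h1 h2

lemma linkM_sum {r : ℕ} (hr : 2 ≤ r) : ∑ c ∈ Fintype.piFinset (fun _ : Fin (linkM.n + 1) => colours r),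
    (∏ i, (qint r (c i) : ℂ)) * linkM.coloured r c = ∑ a ∈ colours r, ∑ b ∈ colours r,
      ((qint r (a * b) : ℂ) / (qint r a * qint r b)) *
      (((r : ℂ) * ((Real.sin (Real.pi * a / (2 * r)) : ℝ) : ℂ) ^ 2 * ((1 - (-1) ^ (r + a)) / 2) /
        ((Real.sin (Real.pi / r) : ℝ) : ℂ) ^ 4) *
      ((r : ℂ) * ((Real.sin (Real.pi * b / (2 * r)) : ℝ) : ℂ) ^ 2 * ((1 - (-1) ^ (r + b)) / 2) /
        ((Real.sin (Real.pi / r) : ℝ) : ℂ) ^ 4)) := by
  have h0 : ∑ c ∈ Fintype.piFinset (fun _ : Fin (linkM.n + 1) => colours r),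
    (∏ i, (qint r (c i) : ℂ)) * linkM.coloured r c = ∑ c ∈ Fintype.piFinset (fun _ : Fin (5 + 1) => colours r),
    (∏ i, (qint r (c i) : ℂ)) * colAux 5 ![0, 0, 0, 1, 1] ![0, 0, 2, -2, 2, -2] r c := rfl
  rw [h0, sum_pi_succ]
  refine Finset.sum_congr rfl fun a ha => ?_
  rw [sum_pi_succ]
  refine Finset.sum_congr rfl fun b hb => ?_
  have ha0 : 0 < a := by rw [colours, Finset.mem_Ioo] at ha; exact ha.1
  have hb0 : 0 < b := by rw [colours, Finset.mem_Ioo] at hb; exact hb.1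
  rw [← leaf_pair hr a ha0, ← leaf_pair hr b hb0, ← sum_four]
  rw [sum_pi_succ]
  refine Finset.sum_congr rfl fun c _ => ?_
  rw [sum_pi_succ]
  refine Finset.sum_congr rfl fun d _ => ?_
  rw [sum_pi_succ]
  refine Finset.sum_congr rfl fun e _ => ?_
  rw [sum_pi_succ]
  refine Finset.sum_congr rfl fun f _ => ?_
  rw [sum_pi_zero]
  exact linkM_term hr ha hb c d e f

end TreeWRT
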