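import Mathlib
import Pool.Agent.H833R2.AECTau
import Pool.Agent.H833R2.AECSig

set_option autoImplicit false

open Finset

namespace TreeWRT

/-- θ_i = (2 i + 1) π / (2 r) -/
noncomputable def th (r i : ℕ) : ℝ := (2 * i + 1) * Real.pi / (2 * r)

lemma sin_th_pos {r i : ℕ} (hi : i < r) : 0 < Real.sin (th r i) := by
  have h1 : (i : ℝ) + 1 ≤ r := by exact_mod_cast hi
  have h2 : (0 : ℝ) ≤ i := Nat.cast_nonneg i
  have h3 : (0 : ℝ) < r := by linarith
  apply Real.sin_pos_of_pos_of_lt_pi
  · unfold th; positivity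
  · unfold th
    rw [div_lt_iff₀ (by linarith)]
    nlinarith [Real.pi_pos]

lemma sum_cos {r k : ℕ} (hk : 0 < k) (hkr : k < r) : ∑ i ∈ range r, Real.cos (2 * k * th r i) = 0 := by
  have hr : 0 < r := by omega
  have h1 : ∀ i : ℕ, ((Real.cos (2 * k * th r i) : ℝ) : ℂ) = (1 / 2) * (ee r k * ee r ((2 * k) * i)) +
      (1 / 2) * (ee r (-k) * ee r ((-2 * k) * i)) := by
    intro i
    have h2 : 2 * (k : ℝ) * th r i = Real.pi * ((k * (2 * i + 1) : ℤ) : ℝ) / r := by
      unfold th; push_cast; field_simp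
    rw [h2, cos_ee, ← ee_add, ← ee_add]
    rw [show (k : ℤ) + 2 * k * i = k * (2 * i + 1) by ring, show -(k : ℤ) + -2 * k * i = -(k * (2 * i + 1)) by ring]
    ring
  have h2 : ((∑ i ∈ range r, Real.cos (2 * k * th r i) : ℝ) : ℂ) = 0 := by
    rw [Complex.ofReal_sum]
    simp_rw [h1]
    rw [Finset.sum_add_distrib, ← Finset.mul_sum, ← Finset.mul_sum, ← Finset.mul_sum, ← Finset.mul_sum]
    have n1 : ee r (2 * k) ≠ 1 := by
      intro h
      have h3 := ee_eq_one hr h
      have h4 := Int.le_of_dvd (by omega) h3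
      omega
    have n2 : ee r (-2 * k) ≠ 1 := by
      intro h
      rw [show (-2 : ℤ) * k = -(2 * k) by ring, ee_neg, inv_eq_one] at h
      exact n1 h
    rw [geom_zero (by rw [show (2 * (k : ℤ)) * (r : ℤ) = 2 * r * k by ring]; exact ee_period hr _) n1,
      geom_zero (by rw [show (-2 * (k : ℤ)) * (r : ℤ) = 2 * r * (-k) by ring]; exact ee_period hr _) n2]
    simp
  exact_mod_cast h2

lemma sum_cot {r : ℕ} (j : ℕ) (hj : j < r) (h0 : 0 < j) :
    ∑ i ∈ range r, Real.sin (2 * j * th r i) * (Real.cos (th r i) / Real.sin (th r i)) = r := by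
  have key : ∀ j i : ℕ, i < r → Real.sin (2 * (j + 1 : ℕ) * th r i) * (Real.cos (th r i) / Real.sin (th r i)) =
      Real.sin (2 * j * th r i) * (Real.cos (th r i) / Real.sin (th r i)) +
        (Real.cos (2 * (j + 1 : ℕ) * th r i) + Real.cos (2 * j * th r i)) := by
    intro j i hi
    have hs := (sin_th_pos hi).ne'
    set t := th r i
    have e1 : 2 * ((j + 1 : ℕ) : ℝ) * t = 2 * j * t + t + t := by push_cast; ring
    rw [e1, Real.sin_add, Real.cos_add (2 * j * t + t) t, Real.sin_add (2 * j * t) t, Real.cos_add (2 * j * t) t]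
    field_simp
    have := Real.sin_sq_add_cos_sq t
    have h2 : Real.cos t ^ 2 = 1 - Real.sin t ^ 2 := by linarith
    ring_nf
    have h3 : Real.cos t ^ 3 = Real.cos t * (1 - Real.sin t ^ 2) := by rw [← h2]; ring
    rw [h3, h2]
    ring
  induction j with
  | zero => omega
  | succ n ih =>
    rw [Finset.sum_congr rfl (fun i hi => key n i (Finset.mem_range.mp hi)), Finset.sum_add_distrib, Finset.sum_add_distrib,
      sum_cos (by omega) hj]
    rcases Nat.eq_zero_or_pos n with rfl | hn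
    · simp
    · rw [ih (by omega) hn, sum_cos hn (by omega)]
      ring

/-- The parity indicator of b ≡ r + 1 mod 2. -/
noncomputable def par (r b : ℕ) : ℝ := (1 - (-1) ^ (r + b)) / 2

lemma reindex (F : ℤ → ℝ) (hF : ∀ x, F (-x) = F x) (h0 : F 0 = 0) (r : ℕ) :
    ∑ i ∈ range r, F ((r : ℤ) - 1 - 2 * i) = 2 * ∑ b ∈ range r, par r b * F b := by
  induction r using Nat.strong_induction_on with
  | _ r ih =>
    match r with
    | 0 => simp
    | 1 => simp [h0]
    | n + 2 =>
      have h1 := ih n (by omega)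
      rw [Finset.sum_range_succ, Finset.sum_range_succ', Finset.sum_range_succ, Finset.sum_range_succ]
      have e1 : ∑ k ∈ range n, F (((n + 2 : ℕ) : ℤ) - 1 - 2 * ((k + 1 : ℕ) : ℤ)) = ∑ i ∈ range n, F ((n : ℤ) - 1 - 2 * i) := by
        refine Finset.sum_congr rfl fun k _ => ?_
        congr 1; push_cast; ring
      have e2 : ∑ b ∈ range n, par (n + 2) b * F b = ∑ b ∈ range n, par n b * F b := by
        refine Finset.sum_congr rfl fun b _ => ?_
        congr 1
        rw [par, par, show n + 2 + b = (n + b) + 2 by ring, pow_add]; norm_num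
      have e3 : par (n + 2) n = 0 := by
        rw [par, show n + 2 + n = 2 * (n + 1) by ring, pow_mul]; norm_num
      have e4 : par (n + 2) (n + 1) = 1 := by
        rw [par, show n + 2 + (n + 1) = 2 * (n + 1) + 1 by ring, pow_succ, pow_mul]; norm_num
      have e5 : F (((n + 2 : ℕ) : ℤ) - 1 - 2 * ((0 : ℕ) : ℤ)) = F ((n + 1 : ℕ) : ℤ) := by
        congr 1; push_cast; ring
      have e6 : F (((n + 2 : ℕ) : ℤ) - 1 - 2 * ((n + 1 : ℕ) : ℤ)) = F ((n + 1 : ℕ) : ℤ) := by
        rw [← hF]; congr 1; push_cast; ring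
      rw [e1, e2, e3, e4, e5, e6, h1]
      ring

lemma sum_colours_range {r : ℕ} (f : ℕ → ℝ) (h0 : f 0 = 0) : ∑ b ∈ colours r, f b = ∑ b ∈ range r, f b := by
  apply Finset.sum_subset
  · intro x hx; rw [colours, Finset.mem_Ioo] at hx; rw [Finset.mem_range]; exact hx.2
  · intro x hx hx2
    rw [Finset.mem_range] at hx
    rw [colours, Finset.mem_Ioo] at hx2
    have : x = 0 := by omega
    rw [this, h0]

/-- The inner sum. -/
lemma inner_sum {r a : ℕ} (ha : a ∈ colours r) :
    ∑ b ∈ colours r, par r b * (Real.tan (Real.pi * b / (2 * r)) * Real.sin (Real.pi * (a * b : ℕ) / r)) =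
      r / 2 * (-1) ^ (a + 1) := by
  rw [colours, Finset.mem_Ioo] at ha
  have hr : (0 : ℝ) < r := by exact_mod_cast (by omega : 0 < r)
  let F : ℤ → ℝ := fun b => Real.tan (Real.pi * b / (2 * r)) * Real.sin (Real.pi * (a * b) / r)
  have hF : ∀ x, F (-x) = F x := by
    intro x
    simp only [F]
    rw [show Real.pi * ((-x : ℤ) : ℝ) / (2 * r) = -(Real.pi * x / (2 * r)) by push_cast; ring,
      show Real.pi * (a * ((-x : ℤ) : ℝ)) / r = -(Real.pi * (a * x) / r) by push_cast; ring, Real.tan_neg, Real.sin_neg]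
    ring
  have h0 : F 0 = 0 := by simp [F]
  have h1 := reindex F hF h0 r
  have h2 : ∑ b ∈ colours r, par r b * (Real.tan (Real.pi * b / (2 * r)) * Real.sin (Real.pi * (a * b : ℕ) / r)) =
      ∑ b ∈ range r, par r b * F b := by
    rw [sum_colours_range]
    · refine Finset.sum_congr rfl fun b _ => ?_
      simp only [F]; push_cast; rfl
    · simp
  rw [h2]
  have h3 : ∀ i ∈ range r, F ((r : ℤ) - 1 - 2 * i) = (-1) ^ (a + 1) * (Real.sin (2 * a * th r i) * (Real.cos (th r i) / Real.sin (th r i))) := by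
    intro i hi
    simp only [F]
    have e1 : Real.pi * (((r : ℤ) - 1 - 2 * i : ℤ) : ℝ) / (2 * r) = Real.pi / 2 - th r i := by
      unfold th; push_cast; field_simp; ring
    have e2 : Real.pi * (a * (((r : ℤ) - 1 - 2 * i : ℤ) : ℝ)) / r = a * Real.pi - 2 * a * th r i := by
      unfold th; push_cast; field_simp; ring
    rw [e1, e2, Real.tan_pi_div_two_sub, Real.tan_eq_sin_div_cos, inv_div, Real.sin_sub, Real.sin_nat_mul_pi, Real.cos_nat_mul_pi]
    ring
  rw [Finset.sum_congr rfl h3, ← Finset.mul_sum, sum_cot a ha.2 ha.1] at h1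
  linarith

end TreeWRT
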