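import Mathlib
import Pool.Agent.H833R2.AECTrig

set_option autoImplicit false

open Finset

namespace TreeWRT

/-- The sum of tangents. -/
noncomputable def tsum (r : ℕ) : ℝ := ∑ a ∈ colours r, par r a * Real.tan (Real.pi * a / (2 * r))

lemma par_sign (r a : ℕ) : par r a * (-1) ^ (a + 1) = par r a * (-1) ^ r := by
  rw [par]
  have h1 : ((-1 : ℝ) ^ (r + a)) = (-1) ^ r * (-1) ^ a := pow_add _ _ _
  rw [h1, pow_succ]
  have h2 : ((-1 : ℝ) ^ a) * (-1) ^ a = 1 := by rw [← mul_pow]; norm_num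
  have h3 : ((-1 : ℝ) ^ r) * (-1) ^ r = 1 := by rw [← mul_pow]; norm_num
  linear_combination (-1 / 2 : ℝ) * (-1 : ℝ) ^ a * h3 * 0 + ((1 : ℝ) / 2) * (-1) ^ r * h2 + ((1 : ℝ) / 2) * (-1) ^ a * h3

lemma tan_half {r a : ℕ} (ha : a ∈ colours r) : Real.sin (Real.pi * a / (2 * r)) ^ 2 / Real.sin (Real.pi * a / r) =
    Real.tan (Real.pi * a / (2 * r)) / 2 := by
  have hs := sin_pos_colour ha
  rw [colours, Finset.mem_Ioo] at ha
  have hr : (0 : ℝ) < r := by exact_mod_cast (by omega : 0 < r)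
  have e : Real.pi * a / r = 2 * (Real.pi * a / (2 * r)) := by field_simp
  rw [e, Real.sin_two_mul] at hs ⊢
  set t := Real.pi * a / (2 * r)
  have h1 : Real.sin t ≠ 0 := by
    intro h; rw [h] at hs; simp at hs
  have h2 : Real.cos t ≠ 0 := by
    intro h; rw [h] at hs; simp at hs
  rw [Real.tan_eq_sin_div_cos]
  field_simp

lemma linkM_sum_real {r : ℕ} (hr : 2 ≤ r) : ∑ c ∈ Fintype.piFinset (fun _ : Fin (linkM.n + 1) => colours r),
    (∏ i, (qint r (c i) : ℂ)) * linkM.coloured r c =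
      (((r : ℝ) ^ 3 / (8 * Real.sin (Real.pi / r) ^ 7) * ((-1) ^ r * tsum r) : ℝ) : ℂ) := by
  rw [linkM_sum hr]
  have hs := s1_pos hr
  set s := Real.sin (Real.pi / r) with hsdef
  have h1 : ∀ a ∈ colours r, ∀ b ∈ colours r, ((qint r (a * b) : ℂ) / (qint r a * qint r b)) *
      (((r : ℂ) * ((Real.sin (Real.pi * a / (2 * r)) : ℝ) : ℂ) ^ 2 * ((1 - (-1) ^ (r + a)) / 2) / (s : ℂ) ^ 4) *
      ((r : ℂ) * ((Real.sin (Real.pi * b / (2 * r)) : ℝ) : ℂ) ^ 2 * ((1 - (-1) ^ (r + b)) / 2) / (s : ℂ) ^ 4)) =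
      (((r : ℝ) ^ 2 / (4 * s ^ 7) * ((par r a * Real.tan (Real.pi * a / (2 * r))) *
        (par r b * (Real.tan (Real.pi * b / (2 * r)) * Real.sin (Real.pi * (a * b : ℕ) / r)))) : ℝ) : ℂ) := by
    intro a ha b hb
    have e0 : ((qint r (a * b) : ℂ) / (qint r a * qint r b)) *
      (((r : ℂ) * ((Real.sin (Real.pi * a / (2 * r)) : ℝ) : ℂ) ^ 2 * ((1 - (-1) ^ (r + a)) / 2) / (s : ℂ) ^ 4) *
      ((r : ℂ) * ((Real.sin (Real.pi * b / (2 * r)) : ℝ) : ℂ) ^ 2 * ((1 - (-1) ^ (r + b)) / 2) / (s : ℂ) ^ 4)) =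
      (((qint r (a * b)) / (qint r a * qint r b) *
      (((r : ℝ) * (Real.sin (Real.pi * a / (2 * r))) ^ 2 * (par r a) / s ^ 4) *
      ((r : ℝ) * (Real.sin (Real.pi * b / (2 * r))) ^ 2 * (par r b) / s ^ 4)) : ℝ) : ℂ) := by
      rw [par, par]; push_cast; ring
    rw [e0]
    congr 1
    have hsa := sin_pos_colour ha
    have hsb := sin_pos_colour hb
    have ta := tan_half ha
    have tb := tan_half hb
    have ea : Real.sin (Real.pi * a / (2 * r)) ^ 2 = Real.tan (Real.pi * a / (2 * r)) / 2 * Real.sin (Real.pi * a / r) := by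
      rw [← ta]; field_simp
    have eb : Real.sin (Real.pi * b / (2 * r)) ^ 2 = Real.tan (Real.pi * b / (2 * r)) / 2 * Real.sin (Real.pi * b / r) := by
      rw [← tb]; field_simp
    rw [ea, eb, qint, qint, qint, ← hsdef]
    field_simp
    ring
  rw [Finset.sum_congr rfl (fun a ha => Finset.sum_congr rfl (fun b hb => h1 a ha b hb))]
  have h2 : ∑ a ∈ colours r, ∑ b ∈ colours r, ((r : ℝ) ^ 2 / (4 * s ^ 7) * ((par r a * Real.tan (Real.pi * a / (2 * r))) *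
        (par r b * (Real.tan (Real.pi * b / (2 * r)) * Real.sin (Real.pi * (a * b : ℕ) / r))))) =
      (r : ℝ) ^ 3 / (8 * s ^ 7) * ((-1) ^ r * tsum r) := by
    have h3 : ∀ a ∈ colours r, ∑ b ∈ colours r, ((r : ℝ) ^ 2 / (4 * s ^ 7) * ((par r a * Real.tan (Real.pi * a / (2 * r))) *
        (par r b * (Real.tan (Real.pi * b / (2 * r)) * Real.sin (Real.pi * (a * b : ℕ) / r))))) =
        (r : ℝ) ^ 3 / (8 * s ^ 7) * ((-1) ^ r * (par r a * Real.tan (Real.pi * a / (2 * r)))) := by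
      intro a ha
      rw [← Finset.mul_sum, ← Finset.mul_sum, inner_sum ha]
      have h4 := par_sign r a
      have h5 : par r a * Real.tan (Real.pi * a / (2 * r)) * (r / 2 * (-1) ^ (a + 1)) =
          (par r a * (-1) ^ (a + 1)) * Real.tan (Real.pi * a / (2 * r)) * (r / 2) := by ring
      rw [h5, h4]
      field_simp
      ring
    rw [Finset.sum_congr rfl h3, ← Finset.mul_sum, ← Finset.mul_sum, tsum]
  rw [← h2]
  push_cast
  rfl

/-- The closed formula for the invariant of S^1 x S^2. -/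
lemma tau_unknot {r : ℕ} (hr : 2 ≤ r) : unknotZero.tau r = (dtot r : ℂ) := by
  have hD := dtot_pos hr
  have hD' : (dtot r : ℂ) ≠ 0 := by exact_mod_cast hD.ne'
  have h1 : ∑ m ∈ colours r, (qint r m : ℂ) ^ 2 = (dtot r : ℂ) ^ 2 := by
    have : (∑ l ∈ colours r, qint r l ^ 2) = dtot r ^ 2 := by
      rw [dtot, Real.sq_sqrt]
      exact Finset.sum_nonneg fun _ _ => sq_nonneg _
    have h2 : ((∑ l ∈ colours r, qint r l ^ 2 : ℝ) : ℂ) = ((dtot r ^ 2 : ℝ) : ℂ) := by rw [this]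
    push_cast at h2
    exact h2
  rw [TreeLink.tau, unknot_sum, bplus_unknot, bminus_unknot, bzero_unknot, h1]
  simp
  field_simp

/-- The closed formula for the invariant of M. -/
theorem Z_formula {r : ℕ} (hr : 2 ≤ r) : Zinv linkM r = (((-1) ^ r * tsum r / Real.sqrt (r / 2) : ℝ) : ℂ) := by
  have hD := dtot_pos hr
  have hD' : (dtot r : ℂ) ≠ 0 := by exact_mod_cast hD.ne'
  have hs := s1_pos hr
  have hr0 : (0 : ℝ) < r := by exact_mod_cast (by omega : 0 < r)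
  rw [Zinv, tau_unknot hr, TreeLink.tau, linkM_sum_real hr, bplus_linkM, bminus_linkM, bzero_linkM]
  have h1 : gauss r 1 ^ (-((3 : ℕ) : ℤ)) * gauss r (-1) ^ (-((3 : ℕ) : ℤ)) = ((dtot r : ℂ) ^ 6)⁻¹ := by
    rw [← mul_zpow, gauss_mul hr, zpow_neg, zpow_natCast, ← pow_mul]
  rw [h1]
  have h2 : dtot r = Real.sqrt (r / 2) / Real.sin (Real.pi / r) := by
    rw [← Real.sqrt_sq hD.le, dtot_sq hr, Real.sqrt_div (by positivity), Real.sqrt_sq hs.le]
  have h3 : ((dtot r : ℂ) ^ 6)⁻¹ * (dtot r : ℂ) ^ (-((0 : ℕ) : ℤ)) *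
      (((r : ℝ) ^ 3 / (8 * Real.sin (Real.pi / r) ^ 7) * ((-1) ^ r * tsum r) : ℝ) : ℂ) / (dtot r : ℂ) =
      (((dtot r ^ 6)⁻¹ * ((r : ℝ) ^ 3 / (8 * Real.sin (Real.pi / r) ^ 7) * ((-1) ^ r * tsum r)) / dtot r : ℝ) : ℂ) := by
    push_cast; simp
  rw [h3]
  congr 1
  have h4 : Real.sqrt (r / 2) ^ 6 = (r / 2) ^ 3 := by
    rw [show 6 = 2 * 3 by norm_num, pow_mul, Real.sq_sqrt (by positivity)]
  have h5 : 0 < Real.sqrt (r / 2) := Real.sqrt_pos.mpr (by positivity)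
  rw [h2, div_pow, h4]
  field_simp
  ring

end TreeWRT
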