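import Mathlib
import Pool.Agent.H833R2.AECForm

set_option autoImplicit false

open Finset Filter Topology

namespace TreeWRT

lemma reindex2 (F : ℤ → ℝ) (h0 : F 0 = 0) (r : ℕ) :
    ∑ b ∈ range r, par r b * F b = ∑ i ∈ range (r / 2), F ((r : ℤ) - 1 - 2 * i) := by
  induction r using Nat.strong_induction_on with
  | _ r ih =>
    match r with
    | 0 => simp
    | 1 => simp [h0]
    | n + 2 =>
      have h1 := ih n (by omega)
      rw [show (n + 2) / 2 = n / 2 + 1 by omega, Finset.sum_range_succ, Finset.sum_range_succ, Finset.sum_range_succ']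
      have e1 : ∑ k ∈ range (n / 2), F (((n + 2 : ℕ) : ℤ) - 1 - 2 * ((k + 1 : ℕ) : ℤ)) = ∑ i ∈ range (n / 2), F ((n : ℤ) - 1 - 2 * i) := by
        refine Finset.sum_congr rfl fun k _ => ?_
        congr 1; push_cast; ring
      have e2 : ∑ b ∈ range n, par (n + 2) b * F b = ∑ b ∈ range n, par n b * F b := by
        refine Finset.sum_congr rfl fun b _ => ?_
        congr 1
        rw [par, par, show n + 2 + b = (n + b) + 2 by ring, pow_add]; norm_num
      have e3 : par (n + 2) n = 0 := by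
        rw [par, show n + 2 + n = 2 * (n + 1) by ring, pow_mul]; norm_num
      have e4 : par (n + 2) (n + 1) = 1 := by
        rw [par, show n + 2 + (n + 1) = 2 * (n + 1) + 1 by ring, pow_succ, pow_mul]; norm_num
      have e5 : F (((n + 2 : ℕ) : ℤ) - 1 - 2 * ((0 : ℕ) : ℤ)) = F ((n + 1 : ℕ) : ℤ) := by
        congr 1; push_cast; ring
      rw [e1, e2, e3, e4, e5, h1]
      ring

lemma tsum_eq (r : ℕ) (hr : 0 < r) : tsum r = ∑ i ∈ range (r / 2), Real.cos (th r i) / Real.sin (th r i) := by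
  have hr0 : (0 : ℝ) < r := by exact_mod_cast hr
  have h := reindex2 (fun b : ℤ => Real.tan (Real.pi * b / (2 * r))) (by simp) r
  rw [tsum, sum_colours_range _ (by simp)]
  have h2 : ∑ b ∈ range r, par r b * Real.tan (Real.pi * b / (2 * r)) =
    ∑ b ∈ range r, par r b * Real.tan (Real.pi * ((b : ℤ) : ℝ) / (2 * r)) := by
    refine Finset.sum_congr rfl fun b _ => ?_
    push_cast; rfl
  rw [h2, h]
  refine Finset.sum_congr rfl fun i _ => ?_
  have e1 : Real.pi * (((r : ℤ) - 1 - 2 * i : ℤ) : ℝ) / (2 * r) = Real.pi / 2 - th r i := by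
    unfold th; push_cast; field_simp; ring
  rw [e1, Real.tan_pi_div_two_sub, Real.tan_eq_sin_div_cos, inv_div]

lemma cot_le {x : ℝ} (h0 : 0 < x) (h1 : x < Real.pi / 2) : Real.cos x / Real.sin x ≤ 1 / x := by
  have h2 := Real.lt_tan h0 h1
  have hs : 0 < Real.sin x := Real.sin_pos_of_pos_of_lt_pi h0 (by linarith [Real.pi_pos])
  have hc : 0 < Real.cos x := Real.cos_pos_of_mem_Ioo ⟨by linarith, h1⟩
  rw [Real.tan_eq_sin_div_cos, lt_div_iff₀ hc] at h2
  rw [div_le_div_iff₀ hs h0]
  linarith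

lemma le_cot {x : ℝ} (h0 : 0 < x) (h1 : x < Real.pi / 2) : 1 / x - 1 ≤ Real.cos x / Real.sin x := by
  have hs : 0 < Real.sin x := Real.sin_pos_of_pos_of_lt_pi h0 (by linarith [Real.pi_pos])
  have hc : 0 < Real.cos x := Real.cos_pos_of_mem_Ioo ⟨by linarith, h1⟩
  have h2 := Real.one_sub_sq_div_two_le_cos (x := x)
  have h3 : Real.sin x ≤ x := (Real.sin_lt h0).le
  have h4 : Real.cos x / x ≤ Real.cos x / Real.sin x := div_le_div_of_nonneg_left hc.le hs h3
  have h5 : (1 - x ^ 2 / 2) / x ≤ Real.cos x / x := div_le_div_of_nonneg_right h2 h0.le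
  have h6 : (1 - x ^ 2 / 2) / x = 1 / x - x / 2 := by field_simp
  have h7 : x < 2 := by linarith [Real.pi_le_four]
  linarith

/-- The sum of the reciprocals of the first n odd numbers. -/
noncomputable def osum (n : ℕ) : ℝ := ∑ i ∈ range n, 1 / (2 * (i : ℝ) + 1)

lemma osum_lower (n : ℕ) : Real.log (2 * n + 1) / 2 ≤ osum n := by
  induction n with
  | zero => simp [osum]
  | succ n ih =>
    rw [osum, Finset.sum_range_succ, ← osum]
    have h1 : (0 : ℝ) < 2 * n + 1 := by positivity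
    have h2 : Real.log ((2 * ((n + 1 : ℕ) : ℝ) + 1) / (2 * n + 1)) ≤ (2 * ((n + 1 : ℕ) : ℝ) + 1) / (2 * n + 1) - 1 :=
      Real.log_le_sub_one_of_pos (by positivity)
    rw [Real.log_div (by positivity) (by positivity)] at h2
    have h3 : (2 * ((n + 1 : ℕ) : ℝ) + 1) / (2 * n + 1) - 1 = 2 * (1 / (2 * n + 1)) := by
      push_cast; field_simp; ring
    linarith

lemma osum_upper (n : ℕ) : osum (n + 1) ≤ 1 + Real.log (2 * n + 1) / 2 := by
  induction n with
  | zero => simp [osum]
  | succ n ih =>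
    rw [osum, Finset.sum_range_succ, ← osum]
    have h2 : Real.log ((2 * (n : ℝ) + 1) / (2 * ((n + 1 : ℕ) : ℝ) + 1)) ≤ (2 * (n : ℝ) + 1) / (2 * ((n + 1 : ℕ) : ℝ) + 1) - 1 :=
      Real.log_le_sub_one_of_pos (by positivity)
    rw [Real.log_div (by positivity) (by positivity)] at h2
    have h3 : (2 * (n : ℝ) + 1) / (2 * ((n + 1 : ℕ) : ℝ) + 1) - 1 = -(2 * (1 / (2 * ((n + 1 : ℕ) : ℝ) + 1))) := by
      push_cast; field_simp; ring
    linarith

lemma th_pos {r i : ℕ} (hr : 0 < r) : 0 < th r i := by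
  unfold th
  have : (0 : ℝ) < r := by exact_mod_cast hr
  positivity

lemma th_lt {r i : ℕ} (hi : i < r / 2) : th r i < Real.pi / 2 := by
  have h1 : 2 * i + 1 < r := by omega
  have h2 : (2 * (i : ℝ) + 1) < r := by exact_mod_cast h1
  have h3 : (0 : ℝ) < r := by linarith [(Nat.cast_nonneg i : (0 : ℝ) ≤ i)]
  unfold th
  rw [div_lt_div_iff₀ (by positivity) (by norm_num)]
  nlinarith [Real.pi_pos]

lemma sum_inv_th {r : ℕ} (hr : 0 < r) (n : ℕ) : ∑ i ∈ range n, 1 / th r i = 2 * r / Real.pi * osum n := by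
  rw [osum, Finset.mul_sum]
  refine Finset.sum_congr rfl fun i _ => ?_
  have : (0 : ℝ) < r := by exact_mod_cast hr
  have := Real.pi_pos
  unfold th
  field_simp

lemma tsum_upper {r : ℕ} (hr : 2 ≤ r) : tsum r ≤ r * (Real.log r / Real.pi + 1) := by
  have hr0 : (0 : ℝ) < r := by exact_mod_cast (by omega : 0 < r)
  have hpi := Real.pi_gt_three
  rw [tsum_eq r (by omega)]
  have h1 : ∑ i ∈ range (r / 2), Real.cos (th r i) / Real.sin (th r i) ≤ ∑ i ∈ range (r / 2), 1 / th r i :=
    Finset.sum_le_sum fun i hi => cot_le (th_pos (by omega)) (th_lt (Finset.mem_range.mp hi))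
  rw [sum_inv_th (by omega)] at h1
  obtain ⟨n, hn⟩ : ∃ n, r / 2 = n + 1 := ⟨r / 2 - 1, by omega⟩
  rw [hn] at h1 ⊢
  have h2 := osum_upper n
  have h3 : Real.log (2 * n + 1) ≤ Real.log r := by
    apply Real.log_le_log (by positivity)
    have : 2 * n + 1 ≤ r := by omega
    exact_mod_cast this
  have h4 : osum (n + 1) ≤ 1 + Real.log r / 2 := by linarith
  have h5 : 2 * r / Real.pi * osum (n + 1) ≤ 2 * r / Real.pi * (1 + Real.log r / 2) :=
    mul_le_mul_of_nonneg_left h4 (by positivity)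
  have h6 : 2 * r / Real.pi * (1 + Real.log r / 2) = r * (Real.log r / Real.pi + 2 / Real.pi) := by
    field_simp; ring
  have h7 : 2 / Real.pi ≤ 1 := by rw [div_le_one (by positivity)]; linarith
  have h8 : r * (Real.log r / Real.pi + 2 / Real.pi) ≤ r * (Real.log r / Real.pi + 1) :=
    mul_le_mul_of_nonneg_left (by linarith) hr0.le
  linarith

lemma tsum_lower {r : ℕ} (hr : 2 ≤ r) : r * (Real.log r / Real.pi - 1) ≤ tsum r := by
  have hr0 : (0 : ℝ) < r := by exact_mod_cast (by omega : 0 < r)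
  have hpi := Real.pi_gt_three
  rw [tsum_eq r (by omega)]
  have h1 : ∑ i ∈ range (r / 2), (1 / th r i - 1) ≤ ∑ i ∈ range (r / 2), Real.cos (th r i) / Real.sin (th r i) :=
    Finset.sum_le_sum fun i hi => le_cot (th_pos (by omega)) (th_lt (Finset.mem_range.mp hi))
  rw [Finset.sum_sub_distrib, sum_inv_th (by omega)] at h1
  simp only [Finset.sum_const, Finset.card_range, nsmul_eq_mul, mul_one] at h1
  have h2 := osum_lower (r / 2)
  have h3 : Real.log r ≤ Real.log (2 * ((r / 2 : ℕ) : ℝ) + 1) := by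
    apply Real.log_le_log hr0
    have : r ≤ 2 * (r / 2) + 1 := by omega
    exact_mod_cast this
  have h4 : Real.log r / 2 ≤ osum (r / 2) := by linarith
  have h5 : 2 * r / Real.pi * (Real.log r / 2) ≤ 2 * r / Real.pi * osum (r / 2) :=
    mul_le_mul_of_nonneg_left h4 (by positivity)
  have h6 : 2 * r / Real.pi * (Real.log r / 2) = r * (Real.log r / Real.pi) := by
    field_simp
  have h7 : ((r / 2 : ℕ) : ℝ) ≤ r := by
    have : r / 2 ≤ r := by omega
    exact_mod_cast this
  have h8 : r * (Real.log r / Real.pi - 1) = r * (Real.log r / Real.pi) - r := by ring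
  linarith

lemma tendsto_log_nat : Tendsto (fun r : ℕ => Real.log r) atTop atTop :=
  Real.tendsto_log_atTop.comp tendsto_natCast_atTop_atTop

lemma tendsto_tsum : Tendsto (fun r : ℕ => tsum r / (r * Real.log r)) atTop (𝓝 (1 / Real.pi)) := by
  have hlog := tendsto_log_nat
  have h1 : Tendsto (fun r : ℕ => 1 / Real.pi - 1 / Real.log r) atTop (𝓝 (1 / Real.pi)) := by
    have := (tendsto_const_nhds (x := (1 : ℝ))).div_atTop hlog
    simpa using (tendsto_const_nhds (x := 1 / Real.pi)).sub this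
  have h2 : Tendsto (fun r : ℕ => 1 / Real.pi + 1 / Real.log r) atTop (𝓝 (1 / Real.pi)) := by
    have := (tendsto_const_nhds (x := (1 : ℝ))).div_atTop hlog
    simpa using (tendsto_const_nhds (x := 1 / Real.pi)).add this
  refine tendsto_of_tendsto_of_tendsto_of_le_of_le' h1 h2 ?_ ?_
  · filter_upwards [eventually_ge_atTop 2] with r hr
    have hr0 : (0 : ℝ) < r := by exact_mod_cast (by omega : 0 < r)
    have hl : 0 < Real.log r := Real.log_pos (by exact_mod_cast (by omega : 1 < r))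
    rw [le_div_iff₀ (by positivity)]
    have := tsum_lower hr
    have e : (1 / Real.pi - 1 / Real.log r) * (r * Real.log r) = r * (Real.log r / Real.pi - 1) := by
      have := Real.pi_pos
      field_simp
    linarith
  · filter_upwards [eventually_ge_atTop 2] with r hr
    have hr0 : (0 : ℝ) < r := by exact_mod_cast (by omega : 0 < r)
    have hl : 0 < Real.log r := Real.log_pos (by exact_mod_cast (by omega : 1 < r))
    rw [div_le_iff₀ (by positivity)]
    have := tsum_upper hr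
    have e : (1 / Real.pi + 1 / Real.log r) * (r * Real.log r) = r * (Real.log r / Real.pi + 1) := by
      have := Real.pi_pos
      field_simp
    linarith

/-- The growth of the invariant: (-1)^r Z_k (M) is asymptotic to (√2 / π) √r log r. -/
theorem Z_growth : Tendsto (fun r : ℕ => (-1 : ℂ) ^ r * Zinv linkM r / ((Real.sqrt r * Real.log r : ℝ) : ℂ)) atTop
    (𝓝 ((Real.sqrt 2 / Real.pi : ℝ) : ℂ)) := by
  have h1 : Tendsto (fun r : ℕ => ((Real.sqrt 2 * (tsum r / (r * Real.log r)) : ℝ) : ℂ)) atTop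
      (𝓝 ((Real.sqrt 2 / Real.pi : ℝ) : ℂ)) := by
    have h2 := (tendsto_tsum.const_mul (Real.sqrt 2))
    rw [show Real.sqrt 2 * (1 / Real.pi) = Real.sqrt 2 / Real.pi by ring] at h2
    exact (Complex.continuous_ofReal.tendsto _).comp h2
  refine h1.congr' ?_
  filter_upwards [eventually_ge_atTop 2] with r hr
  have hr0 : (0 : ℝ) < r := by exact_mod_cast (by omega : 0 < r)
  have hl : 0 < Real.log r := Real.log_pos (by exact_mod_cast (by omega : 1 < r))
  rw [Z_formula hr]
  have h3 : (-1 : ℂ) ^ r = (((-1) ^ r : ℝ) : ℂ) := by push_cast; rfl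
  rw [h3, ← Complex.ofReal_mul, ← Complex.ofReal_div]
  congr 1
  have h4 : ((-1 : ℝ) ^ r) * (-1) ^ r = 1 := by rw [← mul_pow]; norm_num
  have h5 : (-1 : ℝ) ^ r * ((-1) ^ r * tsum r / Real.sqrt (r / 2)) = tsum r / Real.sqrt (r / 2) := by
    rw [← mul_div_assoc, ← mul_assoc, h4, one_mul]
  rw [h5, Real.sqrt_div hr0.le]
  have h6 : Real.sqrt r * Real.sqrt r = r := Real.mul_self_sqrt hr0.le
  have h7 : 0 < Real.sqrt r := Real.sqrt_pos.mpr hr0
  have h8 : 0 < Real.sqrt 2 := Real.sqrt_pos.mpr (by norm_num)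
  field_simp
  rw [Real.sq_sqrt hr0.le]

end TreeWRT
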