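import Mathlib
import Pool.Agent.H833R2.AECGrowth

set_option autoImplicit false

open Finset Filter Topology

namespace TreeWRT

/-- A finite exponential sum with unimodular frequencies that tends to 0 vanishes. -/
lemma trig_zero {ι : Type} [DecidableEq ι] (s : Finset ι) (ω : ι → ℂ) :
    (∀ i ∈ s, ‖ω i‖ = 1) → ∀ B : ι → ℂ, Tendsto (fun r : ℕ => ∑ i ∈ s, B i * ω i ^ r) atTop (𝓝 0) →
      ∀ r : ℕ, ∑ i ∈ s, B i * ω i ^ r = 0 := by
  induction s using Finset.induction_on with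
  | empty => intro _ B _ r; simp
  | insert a s ha ih =>
    intro hω B hB r
    set T : ℕ → ℂ := fun r => ∑ i ∈ insert a s, B i * ω i ^ r with hT
    have h1 : ∀ r, T (r + 1) - ω a * T r = ∑ i ∈ s, (B i * (ω i - ω a)) * ω i ^ r := by
      intro r
      simp only [hT]
      rw [Finset.sum_insert ha, Finset.sum_insert ha, mul_add, Finset.mul_sum]
      rw [show B a * ω a ^ (r + 1) + ∑ i ∈ s, B i * ω i ^ (r + 1) - (ω a * (B a * ω a ^ r) + ∑ i ∈ s, ω a * (B i * ω i ^ r)) =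
        ∑ i ∈ s, B i * ω i ^ (r + 1) - ∑ i ∈ s, ω a * (B i * ω i ^ r) by rw [pow_succ]; ring]
      rw [← Finset.sum_sub_distrib]
      refine Finset.sum_congr rfl fun i _ => ?_
      rw [pow_succ]; ring
    have h2 : Tendsto (fun r : ℕ => ∑ i ∈ s, (B i * (ω i - ω a)) * ω i ^ r) atTop (𝓝 0) := by
      have h3 : Tendsto (fun r : ℕ => T (r + 1) - ω a * T r) atTop (𝓝 (0 - ω a * 0)) :=
        ((tendsto_add_atTop_iff_nat 1).mpr hB).sub (hB.const_mul _)
      simp only [mul_zero, sub_zero] at h3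
      refine h3.congr fun r => h1 r
    have h4 := ih (fun i hi => hω i (Finset.mem_insert_of_mem hi)) _ h2
    have h5 : ∀ r, T (r + 1) = ω a * T r := by
      intro r
      have := h1 r
      rw [h4 r] at this
      exact sub_eq_zero.mp this
    have h6 : ∀ r, T r = ω a ^ r * T 0 := by
      intro r
      induction r with
      | zero => simp
      | succ n ihn => rw [h5, ihn, pow_succ]; ring
    have h7 : ∀ r, ‖T r‖ = ‖T 0‖ := by
      intro r
      rw [h6 r, norm_mul, norm_pow, hω a (Finset.mem_insert_self _ _), one_pow, one_mul]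
    have h8 : Tendsto (fun r : ℕ => ‖T r‖) atTop (𝓝 0) := by
      have := hB.norm
      simpa using this
    have h9 : Tendsto (fun _ : ℕ => ‖T 0‖) atTop (𝓝 0) := h8.congr h7
    have h10 : ‖T 0‖ = 0 := tendsto_nhds_unique tendsto_const_nhds h9
    have h11 : ‖T r‖ = 0 := by rw [h7, h10]
    exact norm_eq_zero.mp h11

lemma cpow_ne {r : ℕ} (hr : 0 < r) (x : ℝ) : (((r : ℝ) ^ x : ℝ) : ℂ) ≠ 0 := by
  have : (0 : ℝ) < (r : ℝ) ^ x := Real.rpow_pos_of_pos (by exact_mod_cast hr) _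
  exact_mod_cast this.ne'

lemma exps_zero {ι : Type} [DecidableEq ι] (ω : ι → ℂ) (x : ι → ℝ) (B : ι → ℂ) (a0 : ℝ) (S : Finset ℝ) :
    (∀ p ∈ S, a0 < p) → ∀ s : Finset ι, (∀ i ∈ s, ‖ω i‖ = 1) → (∀ i ∈ s, x i ∈ S) →
      (∀ ε : ℝ, 0 < ε → Tendsto (fun r : ℕ => (∑ i ∈ s, B i * ω i ^ r * (((r : ℝ) ^ x i : ℝ) : ℂ)) /
        (((r : ℝ) ^ (a0 + ε) : ℝ) : ℂ)) atTop (𝓝 0)) →
      ∀ r : ℕ, 0 < r → ∑ i ∈ s, B i * ω i ^ r * (((r : ℝ) ^ x i : ℝ) : ℂ) = 0 := by
  induction S using Finset.induction_on_max with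
  | empty =>
    intro _ s _ hs _ r _
    have : s = ∅ := Finset.eq_empty_of_forall_notMem fun i hi => by simpa using hs i hi
    rw [this]; simp
  | insert a S hmax ih =>
    intro hS s hω hs hT r hr
    have haS : a ∉ S := fun h => lt_irrefl _ (hmax a h)
    set s1 := s.filter (fun i => x i = a) with hs1
    set s2 := s.filter (fun i => ¬ x i = a) with hs2
    have hsplit : ∀ r : ℕ, ∑ i ∈ s, B i * ω i ^ r * (((r : ℝ) ^ x i : ℝ) : ℂ) =
        (((r : ℝ) ^ a : ℝ) : ℂ) * (∑ i ∈ s1, B i * ω i ^ r) + ∑ i ∈ s2, B i * ω i ^ r * (((r : ℝ) ^ x i : ℝ) : ℂ) := by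
      intro r
      rw [← Finset.sum_filter_add_sum_filter_not s (fun i => x i = a)]
      congr 1
      rw [Finset.mul_sum]
      refine Finset.sum_congr rfl fun i hi => ?_
      rw [(Finset.mem_filter.mp hi).2]; ring
    have hx2 : ∀ i ∈ s2, x i ∈ S := by
      intro i hi
      have h1 := Finset.mem_filter.mp hi
      have h2 := hs i h1.1
      rw [Finset.mem_insert] at h2
      exact h2.resolve_left h1.2
    -- the terms of lower order
    have hlow : Tendsto (fun r : ℕ => (∑ i ∈ s2, B i * ω i ^ r * (((r : ℝ) ^ x i : ℝ) : ℂ)) / (((r : ℝ) ^ a : ℝ) : ℂ)) atTop (𝓝 0) := by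
      have h1 : ∀ i ∈ s2, Tendsto (fun r : ℕ => (B i * ω i ^ r * (((r : ℝ) ^ x i : ℝ) : ℂ)) / (((r : ℝ) ^ a : ℝ) : ℂ)) atTop (𝓝 0) := by
        intro i hi
        have hlt := hmax _ (hx2 i hi)
        rw [tendsto_zero_iff_norm_tendsto_zero]
        have h2 : Tendsto (fun r : ℕ => ‖B i‖ * (r : ℝ) ^ (-(a - x i))) atTop (𝓝 (‖B i‖ * 0)) :=
          ((tendsto_rpow_neg_atTop (by linarith : 0 < a - x i)).comp tendsto_natCast_atTop_atTop).const_mul _
        rw [mul_zero] at h2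
        refine h2.congr' ?_
        filter_upwards [eventually_gt_atTop 0] with r hr
        have hr0 : (0 : ℝ) < r := by exact_mod_cast hr
        rw [norm_div, norm_mul, norm_mul, norm_pow, hω i (Finset.mem_filter.mp hi).1, one_pow, mul_one, Complex.norm_real,
          Complex.norm_real, Real.norm_of_nonneg (Real.rpow_nonneg hr0.le _), Real.norm_of_nonneg (Real.rpow_nonneg hr0.le _),
          mul_div_assoc, ← Real.rpow_sub hr0]
        congr 2; ring
      have h3 := tendsto_finsetSum s2 h1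
      simp only [Finset.sum_const_zero] at h3
      refine h3.congr fun r => ?_
      rw [Finset.sum_div]
    have hhigh : Tendsto (fun r : ℕ => ∑ i ∈ s1, B i * ω i ^ r) atTop (𝓝 0) := by
      have h1 := hT (a - a0) (by linarith [hS a (Finset.mem_insert_self _ _)])
      rw [show a0 + (a - a0) = a by ring] at h1
      have h2 := h1.sub hlow
      rw [sub_zero] at h2
      refine h2.congr' ?_
      filter_upwards [eventually_gt_atTop 0] with r hr
      rw [hsplit]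
      have := cpow_ne hr a
      field_simp
      ring
    have hzero := trig_zero s1 ω (fun i hi => hω i (Finset.mem_filter.mp hi).1) B hhigh
    have hsame : ∀ r : ℕ, ∑ i ∈ s, B i * ω i ^ r * (((r : ℝ) ^ x i : ℝ) : ℂ) =
        ∑ i ∈ s2, B i * ω i ^ r * (((r : ℝ) ^ x i : ℝ) : ℂ) := by
      intro r; rw [hsplit, hzero r]; ring
    rw [hsame]
    refine ih (fun p hp => hS p (Finset.mem_insert_of_mem hp)) s2 (fun i hi => hω i (Finset.mem_filter.mp hi).1) hx2 ?_ r hr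
    intro ε hε
    refine (hT ε hε).congr fun r => ?_
    rw [hsame]

/-- A sequence that grows faster than √r but slower than every r^(1/2 + ε) is not, up to O(√r), a finite
sum of terms b ω^r r^x with |ω| = 1 and x real. -/
theorem no_power_sum (Z : ℕ → ℂ) (h1 : ∀ ε : ℝ, 0 < ε → Tendsto (fun r : ℕ => ‖Z r‖ / (r : ℝ) ^ (1 / 2 + ε)) atTop (𝓝 0))
    (h2 : Tendsto (fun r : ℕ => ‖Z r‖ / (r : ℝ) ^ (1 / 2 : ℝ)) atTop atTop)
    {ι : Type} [DecidableEq ι] (s : Finset ι) (B ω : ι → ℂ) (x : ι → ℝ) (hω : ∀ i ∈ s, ‖ω i‖ = 1) (C : ℝ)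
    (hC : ∀ᶠ r : ℕ in atTop, ‖Z r - ∑ i ∈ s, B i * ω i ^ r * (((r : ℝ) ^ x i : ℝ) : ℂ)‖ ≤ C * (r : ℝ) ^ (1 / 2 : ℝ)) : False := by
  set sh := s.filter (fun i => 1 / 2 < x i) with hsh
  set sl := s.filter (fun i => ¬ 1 / 2 < x i) with hsl
  set g : ℕ → ℂ := fun r => ∑ i ∈ sh, B i * ω i ^ r * (((r : ℝ) ^ x i : ℝ) : ℂ) with hg
  have hlow : ∀ r : ℕ, 0 < r → ‖∑ i ∈ sl, B i * ω i ^ r * (((r : ℝ) ^ x i : ℝ) : ℂ)‖ ≤ (∑ i ∈ sl, ‖B i‖) * (r : ℝ) ^ (1 / 2 : ℝ) := by
    intro r hr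
    have hr0 : (0 : ℝ) < r := by exact_mod_cast hr
    rw [Finset.sum_mul]
    refine (norm_sum_le _ _).trans (Finset.sum_le_sum fun i hi => ?_)
    have hi' := Finset.mem_filter.mp hi
    rw [norm_mul, norm_mul, norm_pow, hω i hi'.1, one_pow, mul_one, Complex.norm_real, Real.norm_of_nonneg (Real.rpow_nonneg hr0.le _)]
    apply mul_le_mul_of_nonneg_left _ (norm_nonneg _)
    apply Real.rpow_le_rpow_of_exponent_le
    · exact_mod_cast hr
    · exact not_lt.mp hi'.2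
  have hZg : ∀ᶠ r : ℕ in atTop, ‖Z r - g r‖ ≤ (C + ∑ i ∈ sl, ‖B i‖) * (r : ℝ) ^ (1 / 2 : ℝ) := by
    filter_upwards [hC, eventually_gt_atTop 0] with r hr hr0
    have h3 : Z r - g r = (Z r - ∑ i ∈ s, B i * ω i ^ r * (((r : ℝ) ^ x i : ℝ) : ℂ)) + ∑ i ∈ sl, B i * ω i ^ r * (((r : ℝ) ^ x i : ℝ) : ℂ) := by
      rw [← Finset.sum_filter_add_sum_filter_not s (fun i => 1 / 2 < x i)]
      simp only [hg]
      ring
    rw [h3, add_mul]
    exact (norm_add_le _ _).trans (add_le_add hr (hlow r hr0))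
  have hgsmall : ∀ ε : ℝ, 0 < ε → Tendsto (fun r : ℕ => g r / (((r : ℝ) ^ (1 / 2 + ε) : ℝ) : ℂ)) atTop (𝓝 0) := by
    intro ε hε
    rw [tendsto_zero_iff_norm_tendsto_zero]
    have h3 : Tendsto (fun r : ℕ => ‖Z r‖ / (r : ℝ) ^ (1 / 2 + ε) + (C + ∑ i ∈ sl, ‖B i‖) * (r : ℝ) ^ (-ε)) atTop (𝓝 (0 + (C + ∑ i ∈ sl, ‖B i‖) * 0)) :=
      (h1 ε hε).add (((tendsto_rpow_neg_atTop hε).comp tendsto_natCast_atTop_atTop).const_mul _)
    rw [mul_zero, add_zero] at h3
    refine squeeze_zero' (Eventually.of_forall fun r => norm_nonneg _) ?_ h3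
    filter_upwards [hZg, eventually_gt_atTop 0] with r hr hr0
    have hr1 : (0 : ℝ) < r := by exact_mod_cast hr0
    have hp : 0 < (r : ℝ) ^ (1 / 2 + ε) := Real.rpow_pos_of_pos hr1 _
    rw [norm_div, Complex.norm_real, Real.norm_of_nonneg hp.le, div_le_iff₀ hp, add_mul, div_mul_cancel₀ _ hp.ne', mul_assoc,
      ← Real.rpow_add hr1, show -ε + (1 / 2 + ε) = 1 / 2 by ring]
    have h4 : ‖g r‖ ≤ ‖Z r‖ + ‖Z r - g r‖ := by
      have := norm_sub_le (Z r) (Z r - g r)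
      rwa [sub_sub_cancel] at this
    linarith
  have hzero := exps_zero ω x B (1 / 2) (sh.image x) (by
    intro p hp
    rw [Finset.mem_image] at hp
    obtain ⟨i, hi, rfl⟩ := hp
    exact (Finset.mem_filter.mp hi).2) sh (fun i hi => hω i (Finset.mem_filter.mp hi).1)
    (fun i hi => Finset.mem_image_of_mem x hi) hgsmall
  have hbound : ∀ᶠ r : ℕ in atTop, ‖Z r‖ / (r : ℝ) ^ (1 / 2 : ℝ) ≤ C + ∑ i ∈ sl, ‖B i‖ := by
    filter_upwards [hZg, eventually_gt_atTop 0] with r hr hr0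
    have hr1 : (0 : ℝ) < r := by exact_mod_cast hr0
    have hp : 0 < (r : ℝ) ^ (1 / 2 : ℝ) := Real.rpow_pos_of_pos hr1 _
    have h5 : g r = 0 := hzero r hr0
    rw [h5, sub_zero] at hr
    rwa [div_le_iff₀ hp]
  have h6 := h2.eventually (eventually_gt_atTop (C + ∑ i ∈ sl, ‖B i‖))
  obtain ⟨r, hr1, hr2⟩ := (hbound.and h6).exists
  linarith

lemma norm_growth : Tendsto (fun r : ℕ => ‖Zinv linkM r‖ / ((r : ℝ) ^ (1 / 2 : ℝ) * Real.log r)) atTop
    (𝓝 (Real.sqrt 2 / Real.pi)) := by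
  have h := Z_growth.norm
  have hpos : 0 ≤ Real.sqrt 2 / Real.pi := div_nonneg (Real.sqrt_nonneg _) Real.pi_pos.le
  rw [Complex.norm_real, Real.norm_of_nonneg hpos] at h
  refine h.congr' ?_
  filter_upwards [eventually_ge_atTop 2] with r hr
  have hl : 0 < Real.log r := Real.log_pos (by exact_mod_cast (by omega : 1 < r))
  rw [norm_div, norm_mul, norm_pow, norm_neg, norm_one, one_pow, one_mul, Complex.norm_real,
    Real.norm_of_nonneg (mul_nonneg (Real.sqrt_nonneg _) hl.le), Real.sqrt_eq_rpow]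

lemma small_growth (ε : ℝ) (hε : 0 < ε) : Tendsto (fun r : ℕ => ‖Zinv linkM r‖ / (r : ℝ) ^ (1 / 2 + ε)) atTop (𝓝 0) := by
  have h1 : Tendsto (fun x : ℝ => Real.log x / x ^ ε) atTop (𝓝 0) := (isLittleO_log_rpow_atTop hε).tendsto_div_nhds_zero
  have h2 := norm_growth.mul (h1.comp tendsto_natCast_atTop_atTop)
  rw [mul_zero] at h2
  refine h2.congr' ?_
  filter_upwards [eventually_ge_atTop 2] with r hr
  have hr0 : (0 : ℝ) < r := by exact_mod_cast (by omega : 0 < r)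
  have hl : 0 < Real.log r := Real.log_pos (by exact_mod_cast (by omega : 1 < r))
  have h3 : 0 < (r : ℝ) ^ (1 / 2 : ℝ) := Real.rpow_pos_of_pos hr0 _
  have h4 : 0 < (r : ℝ) ^ ε := Real.rpow_pos_of_pos hr0 _
  simp only [Function.comp]
  rw [Real.rpow_add hr0]
  field_simp

lemma large_growth : Tendsto (fun r : ℕ => ‖Zinv linkM r‖ / (r : ℝ) ^ (1 / 2 : ℝ)) atTop atTop := by
  have hpos : 0 < Real.sqrt 2 / Real.pi := div_pos (Real.sqrt_pos.mpr (by norm_num)) Real.pi_pos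
  have h2 := norm_growth.pos_mul_atTop hpos tendsto_log_nat
  refine h2.congr' ?_
  filter_upwards [eventually_ge_atTop 2] with r hr
  have hr0 : (0 : ℝ) < r := by exact_mod_cast (by omega : 0 < r)
  have hl : 0 < Real.log r := Real.log_pos (by exact_mod_cast (by omega : 1 < r))
  have h3 : 0 < (r : ℝ) ^ (1 / 2 : ℝ) := Real.rpow_pos_of_pos hr0 _
  field_simp

/-- The invariant of M is not, up to O(√r), a finite sum of terms b exp (2 π i r c) r^x. -/
theorem no_sum {ι : Type} [DecidableEq ι] (s : Finset ι) (B ω : ι → ℂ) (x : ι → ℝ) (hω : ∀ i ∈ s, ‖ω i‖ = 1) (C : ℝ)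
    (hC : ∀ᶠ r : ℕ in atTop, ‖Zinv linkM r - ∑ i ∈ s, B i * ω i ^ r * (((r : ℝ) ^ x i : ℝ) : ℂ)‖ ≤ C * (r : ℝ) ^ (1 / 2 : ℝ)) : False :=
  no_power_sum _ small_growth large_growth s B ω x hω C hC

theorem no_expansion (m : ℕ) (c : Fin (m + 1) → ℝ) : ¬ HasExpansion (Zinv linkM) m c := by
  rintro ⟨d, I, v, a, -, h⟩
  set D : ℚ := Finset.univ.sup' Finset.univ_nonempty d with hD
  obtain ⟨E, hE⟩ := exists_nat_ge ((D : ℝ) - 3 / 2)
  obtain ⟨C, hC⟩ := h E
  let a' : Fin (m + 1) → ℕ → ℂ := fun j e => if e = 0 then 1 else a j e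
  let B : Fin (m + 1) × ℕ → ℂ := fun p => (v p.1 : ℂ) * Complex.exp (2 * Real.pi * Complex.I * ((I p.1 : ℂ) / 8)) * a' p.1 p.2
  let ω : Fin (m + 1) × ℕ → ℂ := fun p => Complex.exp (2 * Real.pi * Complex.I * (c p.1 : ℂ))
  let x : Fin (m + 1) × ℕ → ℝ := fun p => (d p.1 : ℝ) - p.2
  refine no_sum (Finset.univ ×ˢ range (E + 1)) B ω x ?_ |C| ?_
  · intro p _
    simp only [ω]
    rw [Complex.norm_exp]
    simp
  · filter_upwards [eventually_ge_atTop 2] with r hr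
    have hr1 : (1 : ℝ) ≤ r := by exact_mod_cast (by omega : 1 ≤ r)
    have hr0 : (0 : ℝ) < r := by linarith
    have h1 := hC r hr
    have h2 : ∑ p ∈ Finset.univ ×ˢ range (E + 1), B p * ω p ^ r * (((r : ℝ) ^ x p : ℝ) : ℂ) =
        ∑ j, (v j : ℂ) * Complex.exp (2 * Real.pi * Complex.I * (r * (c j : ℂ) + (I j : ℂ) / 8)) *
          (((r : ℝ) ^ (d j : ℝ) : ℝ) : ℂ) * (1 + ∑ e ∈ Finset.Icc 1 E, a j e * ((r : ℂ) ^ e)⁻¹) := by
      rw [Finset.sum_product]
      refine Finset.sum_congr rfl fun j _ => ?_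
      have h3 : (1 + ∑ e ∈ Finset.Icc 1 E, a j e * ((r : ℂ) ^ e)⁻¹) = ∑ e ∈ range (E + 1), a' j e * ((r : ℂ) ^ e)⁻¹ := by
        rw [Finset.sum_range_succ', add_comm]
        congr 1
        · rw [Finset.range_eq_Ico, Finset.sum_Ico_add' (fun e => a' j e * ((r : ℂ) ^ e)⁻¹) 0 E 1]
          refine Finset.sum_congr ?_ fun e he => ?_
          · ext e; simp only [Finset.mem_Icc, Finset.mem_Ico]; omega
          · rw [Finset.mem_Ico] at he
            simp only [a']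
            rw [if_neg (by omega)]
        · simp [a']
      rw [h3, Finset.mul_sum]
      refine Finset.sum_congr rfl fun e _ => ?_
      simp only [B, ω, x]
      rw [Real.rpow_sub hr0, Real.rpow_natCast, ← Complex.exp_nat_mul]
      have h4 : Complex.exp (2 * Real.pi * Complex.I * (r * (c j : ℂ) + (I j : ℂ) / 8)) =
          Complex.exp (2 * Real.pi * Complex.I * ((I j : ℂ) / 8)) * Complex.exp (r * (2 * Real.pi * Complex.I * (c j : ℂ))) := by
        rw [← Complex.exp_add]; congr 1; ring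
      rw [h4]
      push_cast
      field_simp
    rw [h2]
    refine h1.trans ?_
    have h5 : (r : ℝ) ^ ((D : ℝ) - E - 1) ≤ (r : ℝ) ^ (1 / 2 : ℝ) :=
      Real.rpow_le_rpow_of_exponent_le hr1 (by linarith)
    exact mul_le_mul (le_abs_self C) h5 (Real.rpow_nonneg hr0.le _) (abs_nonneg _)

end TreeWRT
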